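import Pool.Agent.Lib.MP_0db9b2_pr.PT.Small

/-
The critical drift and the phase diagram of the limit field.
-/

set_option autoImplicit false

namespace Pool.Agent.Lib.MP_0db9b2_pr.PT

open MeasureTheory ProbabilityTheory Real Filter
open scoped NNReal ENNReal Topology

universe v

variable {d : ℕ} {Ω : Type*} {mΩ : MeasurableSpace Ω} {Ω' : Type*} {mΩ' : MeasurableSpace Ω'}
variable {P : Measure Ω} {F : Filtration ℝ≥0 mΩ} {w : Site d → ℝ≥0 → Ω → ℝ} {k a a' ε ε' : ℝ} {b : ℕ}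
  {u : ℝ≥0 → Site d → Ω → ℝ} {P' : Measure Ω'} {F' : Filtration ℝ≥0 mΩ'}
  {w' : Site d → ℝ≥0 → Ω' → ℝ} {u' : ℝ≥0 → Site d → Ω' → ℝ}

theorem rho_scale {c c' l y : ℝ} (hc' : 0 ≤ c') (h : c' ≤ c * l ^ b) (hl : 0 ≤ l) (hy : 0 ≤ y) :
    rho c b (l * y) ≤ l * rho c' b y := by
  unfold rho
  rw [mul_div_assoc]
  refine mul_le_mul_of_nonneg_left (div_le_div_of_nonneg_left hy
    (zero_lt_one.trans_le (one_le_root hc' hy)) (rpow_le_rpow (by positivity) ?_ (by positivity))) hl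
  rw [mul_pow, ← mul_assoc]
  exact add_le_add le_rfl (mul_le_mul_of_nonneg_right h (by positivity))

theorem flow_cmp {n : ℕ} (hq : (par d k a ε b n).Good) (hq' : (par d k a' ε' b n).Good)
    (ha : a ≤ a') {l : ℝ} (hl : 1 ≤ l) (hc : ε' ≤ ε * l ^ b) {E : ℕ → Site d → ℝ}
    (hE : ∀ j x, 0 < E j x) (j : ℕ) : ∀ x, flow (par d k a ε b n) E (fun _ => 1) j x ≤
      l * flow (par d k a' ε' b n) E (fun _ => 1) j x := by
  induction j with
  | zero => exact fun _ => hl.trans_eq (mul_one l).symm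
  | succ j ih =>
    intro x
    have p0 := flow_nonneg hq hE (f := fun _ => 1) (fun _ => zero_le_one) j
    have p1 := flow_nonneg hq' hE (f := fun _ => 1) (fun _ => zero_le_one) j
    have l0 : 0 ≤ l := zero_le_one.trans hl
    have δ0 := (tm n 1).coe_nonneg
    have a1 : lin (par d k a ε b n) (flow (par d k a ε b n) E (fun _ => 1) j) x ≤
        l * lin (par d k a' ε' b n) (flow (par d k a' ε' b n) E (fun _ => 1) j) x := by
      refine (lin_mono hq ih x).trans ?_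
      have e := lin_comb (q := par d k a ε b n) l 0 (flow (par d k a' ε' b n) E (fun _ => 1) j)
        (fun _ => 0) x
      simp only [zero_mul, add_zero] at e
      rw [e, lin_par, lin_par]
      have := mul_le_mul_of_nonneg_left (mul_le_mul_of_nonneg_right ha (p1 x)) δ0
      exact mul_le_mul_of_nonneg_left (by linarith) l0
    have a2 := (rho_mono hq.c_pos.le hq.b_ne (lin_nonneg hq p0 x) a1).trans
      (rho_scale (c' := (par d k a' ε' b n).c) hq'.c_pos.le (by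
        have := mul_le_mul_of_nonneg_left hc (show 0 ≤ b * (tm n 1 : ℝ) by positivity)
        show b * ε' * (tm n 1 : ℝ) ≤ b * ε * (tm n 1 : ℝ) * l ^ b
        linarith) l0 (lin_nonneg hq' p1 x))
    exact (mul_le_mul_of_nonneg_left a2 (hE j x).le).trans_eq (mul_left_comm _ _ _)

theorem ph_scale {y z l : ℝ} (hy : 0 ≤ y) (hz : 0 ≤ z) (hl : 1 ≤ l) (h : y ≤ l * z) :
    ph y ≤ l * ph z := by
  rw [ph, ph, abs_of_nonneg hy, abs_of_nonneg hz, mul_min_of_nonneg _ _ (zero_le_one.trans hl),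
    mul_one]
  exact min_le_min h hl

theorem cmp (h : Noise P F w) (h' : Noise P' F' w') (hu : Sol P F w k a ε b u)
    (hu' : Sol P' F' w' k a' ε' b u') (hk : 0 ≤ k) (hε : 0 < ε) (hε' : 0 < ε') (hb : b ≠ 0)
    (ha : a ≤ a') (t : ℝ≥0) (x : Site d) :
    ∫ ω, ph (u t x ω) ∂P ≤ (1 + ε' / ε) * ∫ ω, ph (u' t x ω) ∂P' := by
  have := h.prob
  have := h'.prob
  set l := 1 + ε' / ε with hl
  have l1 : 1 ≤ l := le_add_of_nonneg_right (by positivity)
  have l2 : ε' ≤ ε * l ^ b := by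
    have := mul_le_mul_of_nonneg_left (le_self_pow₀ l1 hb) hε.le
    have e : ε * l = ε + ε' := by rw [hl]; field_simp
    linarith
  refine le_of_forall_pos_le_add fun η hη => ?_
  have p : 0 < η / (1 + l) := by positivity
  obtain ⟨n, ⟨e1, e2⟩, ⟨-, hq⟩, -, hq'⟩ := (((hu.convT h hk hε hb t 0 x p).and
    (hu'.convT h' hk hε' hb t 0 x p)).and ((par_good (d := d) (a := a) hk hε hb).and
      (par_good (d := d) (a := a') hk hε' hb))).exists
  rw [add_zero] at e1 e2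
  set j := fl t n + fl 0 n
  have m := fun a ε => measurable_Vn (k := k) (a := a) (ε := ε) (b := b) n j x
  have c1 := ph_L1 (hu.meas t x) ((m a ε).comp h.meas_path) (hu.int_u h t x)
    (h.flow_int hq n _ zero_le_one x)
  have c2 := ph_L1 ((m a' ε').comp h'.meas_path) (hu'.meas t x) (h'.flow_int hq' n _ zero_le_one x)
    (hu'.int_u h' t x)
  have c3 := integral_mono (ph_int (P := P) ((m a ε).comp h.meas_path))
    ((ph_int ((m a' ε').comp h.meas_path)).const_mul l) fun ω =>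
      ph_scale (flow_nonneg hq (noise_pos n _) (fun _ => zero_le_one) j x)
        (flow_nonneg hq' (noise_pos n _) (fun _ => zero_le_one) j x) l1
        (flow_cmp hq hq' ha l1 l2 (noise_pos n (pathOf w ω)) j x)
  have e3 : P.map (pathOf w) = P'.map (pathOf w') := by
    rw [h.law_path, h'.law_path, Noise.wiener, Noise.wiener, law_eq_of_preBrownian
      (h.br 0).toIsPreBrownianReal (h'.br 0).toIsPreBrownianReal (h.meas 0) (h'.meas 0)]
  have mφ := (ph_cont.measurable.comp (m a' ε')).aestronglyMeasurable (μ := P.map (pathOf w))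
  have c4 := integral_map h.meas_path.aemeasurable mφ
  rw [e3] at c4 mφ
  rw [integral_map h'.meas_path.aemeasurable mφ] at c4
  rw [integral_const_mul] at c3
  simp only [Function.comp] at c1 c2 c3 c4
  simp_rw [abs_sub_comm (u t x _)] at c1
  have c5 := mul_le_mul_of_nonneg_left (c2.trans (add_le_add le_rfl e2)) (zero_le_one.trans l1)
  have c6 : (1 + l) * (η / (1 + l)) = η := by field_simp
  rw [← c4] at c3
  linarith

/-- the solution at the origin tends to zero in probability -/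
def Ext (P : Measure Ω) (u : ℝ≥0 → Site d → Ω → ℝ) : Prop :=
  Tendsto (fun t => ∫ ω, ph (u t 0 ω) ∂P) atTop (𝓝 0)

theorem Ext.of_le (h : Noise P F w) (h' : Noise P' F' w') (hu : Sol P F w k a ε b u)
    (hu' : Sol P' F' w' k a' ε' b u') (hk : 0 ≤ k) (hε : 0 < ε) (hε' : 0 < ε') (hb : b ≠ 0)
    (ha : a ≤ a') (e : Ext P' u') : Ext P u :=
  squeeze_zero (fun _ => integral_nonneg fun _ => ph_nonneg _)
    (fun t => cmp h h' hu hu' hk hε hε' hb ha t 0) (by simpa using e.const_mul (1 + ε' / ε))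

theorem Sys.ext_iff {W : Site d → ℝ≥0 → Ω → ℝ} {U : ℝ≥0 → Site d → Ω → ℝ}
    (S : Sys P F w W k a ε b u U) : Ext P U ↔ Ext P u :=
  tendsto_congr fun t => integral_congr_ae (S.hN.ae.mono fun ω hω => by simp only [hω.1])

/-- everything known about the limit law of one solution -/
theorem phase_one [IsProbabilityMeasure P] (hd : 1 ≤ d) (h : Noise P F w)
    (hu : Sol P F w k a ε b u) (hk : 0 ≤ k) (hε : 0 < ε) (hb : b ≠ 0) :
    ∃ (ν : Measure (ℝ≥0 × Site d → ℝ)) (_ : IsProbabilityMeasure ν), LimOf P u ν ∧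
      (Ext P u → ∀ p, ∀ᵐ f ∂ν, f p = 0) ∧ (¬ Ext P u → ∀ p, ∀ᵐ f ∂ν, 0 < f p) ∧
      (a ≤ 0 → Ext P u) ∧ (k = 0 → (Ext P u ↔ a ≤ 1 / 2)) ∧
      (Tendsto (fun N : ℕ => ∫ ω, ph (u N 0 ω) ∂P) atTop (𝓝 0) → Ext P u) := by
  obtain ⟨ν, pν, h1, h2, h3⟩ := hu.main hd h hk hε hb
  obtain ⟨U, W, hN⟩ := exists_nice h hu hk
  have L : LimOf P u ν := ⟨h1, h2, h3⟩
  have S : Sys P F w W k a ε b u U := ⟨h, hu, hN, hk, hε, hb⟩
  have e : Ext P u ↔ ∀ᵐ f ∂ν, f (0, 0) = 0 := S.ext_iff.symm.trans (S.zero_iff L)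
  have z : k = 0 → (Ext P u ↔ a ≤ 1 / 2) := by
    rintro rfl
    refine ⟨fun h4 => not_lt.1 fun h5 => ?_, fun h4 => e.2 (S.zero_zero L h4)⟩
    obtain ⟨f, h6, h7⟩ := ((e.1 h4).and (S.pos_zero L h5)).exists
    exact h7.ne' h6
  refine ⟨ν, pν, L, fun h4 => L.transfer (Q := fun y => y = 0) (e.1 h4),
    fun h4 => L.transfer (Q := fun y => 0 < y) ?_, fun h4 => e.2 (S.zero_of_nonpos L h4), z,
    fun h4 => ?_⟩
  · rcases hk.eq_or_lt with rfl | hk'
    · exact S.pos_zero L (not_le.1 fun h5 => h4 ((z rfl).2 h5))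
    · exact (S.dich L hk').resolve_left fun h5 => h4 (e.2 h5)
  · have c := S.lim_pair L 0 0 (ph_cont.comp continuous_fst) fun _ => ph_le _
    have c' : Tendsto (fun t => ∫ ω, ph (u t 0 ω) ∂P) atTop (𝓝 (∫ f, ph (f (0, 0)) ∂ν)) :=
      c.congr fun t => integral_congr_ae (S.hN.ae.mono fun ω hω => by simp only [hω.1]; rfl)
    rwa [tendsto_nhds_unique (c'.comp tendsto_natCast_atTop_atTop) h4] at c'

theorem exists_crit (hd : 1 ≤ d) (hb : b ≠ 0) : ∃ ac : ℝ → ℝ, ac 0 = 1 / 2 ∧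
    (∀ k, 0 < k → 0 ≤ ac k ∧ ac k < 1 / 2) ∧ Tendsto ac (𝓝[>] 0) (𝓝 (1 / 2)) ∧
    ∀ {Ω : Type v} {mΩ : MeasurableSpace Ω} {P : Measure Ω} {F : Filtration ℝ≥0 mΩ}
      {w : Site d → ℝ≥0 → Ω → ℝ} {k a ε : ℝ} {u : ℝ≥0 → Site d → Ω → ℝ}, Noise P F w →
      Sol P F w k a ε b u → 0 ≤ k → 0 < ε → (a < ac k → Ext P u) ∧ (ac k < a → ¬ Ext P u) := by
  by_cases hx : ∃ (Ω : Type v) (mΩ : MeasurableSpace Ω) (P : Measure Ω) (F : Filtration ℝ≥0 mΩ)
    (w : Site d → ℝ≥0 → Ω → ℝ), Noise P F w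
  swap
  · refine ⟨fun k => 1 / 2 - min k (1 / 2), by simp, fun k hk => ⟨?_, ?_⟩, ?_,
      fun h => absurd ⟨_, _, _, _, _, h⟩ hx⟩
    · exact sub_nonneg.2 (min_le_right _ _)
    · exact sub_lt_self _ (lt_min hk (by norm_num))
    · have : Continuous fun k : ℝ => 1 / 2 - min k (1 / 2) := by fun_prop
      simpa using (this.tendsto 0).mono_left nhdsWithin_le_nhds
  obtain ⟨Ω0, m0, P0, F0, w0, h0⟩ := hx
  have := h0.prob
  let u0 : ℝ → ℝ → ℝ≥0 → Site d → Ω0 → ℝ := fun k a t x ω => uu k a 1 b (pathOf w0 ω) t x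
  have s0 : ∀ {k : ℝ} (a : ℝ), 0 ≤ k → Sol P0 F0 w0 k a 1 b (u0 k a) :=
    fun a hk => h0.exists_sol hk zero_le_one
  let S : ℝ → Set ℝ := fun k => {a | Ext P0 (u0 k a)}
  have z0 : ∀ k, 0 ≤ k → 0 ∈ S k := fun k hk => by
    obtain ⟨ν, _, -, -, -, h1, -⟩ := phase_one hd h0 (s0 0 hk) hk one_pos hb
    exact h1 le_rfl
  have e0 : S 0 = Set.Iic (1 / 2) := Set.ext fun a => by
    obtain ⟨ν, _, -, -, -, -, h1, -⟩ := phase_one hd h0 (s0 a le_rfl) le_rfl one_pos hb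
    exact h1 rfl
  have up : ∀ k, 0 < k → ∃ a0 < 1 / 2, a0 ∈ upperBounds (S k) := fun k hk => by
    obtain ⟨a0, h1, h2⟩ := threshold hd h0 hk
    refine ⟨a0, h1, fun a ha => ?_⟩
    obtain ⟨U, W, hN⟩ := exists_nice h0 (s0 a hk.le) hk.le
    have S : Sys P0 F0 w0 W k a 1 b (u0 k a) U := ⟨h0, s0 a hk.le, hN, hk.le, one_pos, hb⟩
    exact h2 a 1 b W _ U S (S.ext_iff.2 ha)
  have bd : ∀ k, 0 ≤ k → BddAbove (S k) := fun k hk => by
    rcases hk.eq_or_lt with rfl | hk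
    · rw [e0]; exact bddAbove_Iic
    · obtain ⟨a0, -, h1⟩ := up k hk
      exact ⟨a0, h1⟩
  have lt : ∀ k, 0 < k → sSup (S k) < 1 / 2 := fun k hk => by
    obtain ⟨a0, h1, h2⟩ := up k hk
    exact (csSup_le ⟨0, z0 k hk.le⟩ h2).trans_lt h1
  refine ⟨fun k => sSup (S k), by simp only [e0, csSup_Iic],
    fun k hk => ⟨le_csSup (bd k hk.le) (z0 k hk.le), lt k hk⟩, tendsto_order.2 ⟨fun a ha => ?_,
      fun a ha => eventually_nhdsWithin_of_forall fun k hk => (lt k hk).trans ha⟩,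
    fun {Ω mΩ P F w k a ε u} h hu hk hε => ⟨fun ha => ?_, fun ha e => ?_⟩⟩
  · obtain ⟨a', h1, h2⟩ := exists_between ha
    filter_upwards [(small_k d h2).filter_mono (nhdsWithin_mono _ Set.Ioi_subset_Ici_self),
      self_mem_nhdsWithin] with k h3 hk
    have hk' : 0 ≤ k := le_of_lt hk
    obtain ⟨ν, _, -, -, -, -, -, h4⟩ := phase_one hd h0 (s0 a' hk') hk' one_pos hb
    exact h1.trans_le (le_csSup (bd k hk') (h4 (h3 h0 (s0 a' hk') one_pos hb)))
  · obtain ⟨a', h1, h2⟩ := exists_lt_of_lt_csSup ⟨0, z0 k hk⟩ ha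
    exact Ext.of_le h h0 hu (s0 a' hk) hk hε one_pos hb h2.le h1
  · exact ha.not_ge (le_csSup (bd k hk) (Ext.of_le h0 h (s0 a hk) hu hk one_pos hε hb le_rfl e))

end Pool.Agent.Lib.MP_0db9b2_pr.PT
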