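import Pool.Agent.Lib.MP_0db9b2_pr.PT.Mean

/-
The averaged logarithmic inequality and the estimate along an edge.
-/

set_option autoImplicit false

namespace Pool.Agent.Lib.MP_0db9b2_pr.PT

open MeasureTheory ProbabilityTheory Real Filter
open scoped NNReal ENNReal Topology

variable {d : ℕ} {Ω : Type*} {mΩ : MeasurableSpace Ω}
variable {P : Measure Ω} {F : Filtration ℝ≥0 mΩ} {w W : Site d → ℝ≥0 → Ω → ℝ} {k a ε : ℝ} {b : ℕ}
  {u U : ℝ≥0 → Site d → Ω → ℝ}

/-- integrable over chance and time with integral at most c -/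
def HL (P : Measure Ω) (T : ℝ≥0) (g : ℝ≥0 → Ω → ℝ) (c : ℝ) : Prop := ∃ c', HJ P T g c' ∧ c' ≤ c

section
variable {g g' : ℝ≥0 → Ω → ℝ} {T : ℝ≥0} {c c' : ℝ}

theorem HJ.hl (h : HJ P T g c) : HL P T g c := ⟨c, h, le_rfl⟩

theorem HL.add (h : HL P T g c) (h' : HL P T g' c') :
    HL P T (fun t ω => g t ω + g' t ω) (c + c') :=
  let ⟨_, h1, h2⟩ := h; let ⟨_, h3, h4⟩ := h'; ⟨_, h1.add h3, add_le_add h2 h4⟩

theorem HL.const_mul (h : HL P T g c) {r : ℝ} (hr : 0 ≤ r) :
    HL P T (fun t ω => r * g t ω) (r * c) :=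
  let ⟨_, h1, h2⟩ := h; ⟨_, h1.const_mul r, mul_le_mul_of_nonneg_left h2 hr⟩

theorem HL.mono (h : HL P T g c) (hc : c ≤ c') : HL P T g c' :=
  let ⟨_, h1, h2⟩ := h; ⟨_, h1, h2.trans hc⟩

theorem HL.sum {f : Fin d → ℝ≥0 → Ω → ℝ} (h : ∀ i, HL P T (f i) c) :
    HL P T (fun t ω => ∑ i, f i t ω) (d * c) := by
  choose a h1 h2 using h
  refine ⟨_, HJ.sum Finset.univ fun i _ => h1 i, (Finset.sum_le_sum fun i _ => h2 i).trans ?_⟩
  simp

theorem HL.of_le (h : HL P T g c) (m : CM mΩ g') (e : ∀ t ω, |g' t ω| ≤ g t ω) : HL P T g' c :=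
  let ⟨_, h1, h2⟩ := h; let ⟨_, h3, h4⟩ := h1.of_le m e; ⟨_, h3, h4.trans h2⟩

end

noncomputable def qq (r : ℝ) : ℝ := r + r⁻¹ - 2

theorem qq_inv (r : ℝ) : qq r⁻¹ = qq r := by unfold qq; rw [inv_inv]; ring

theorem qq_eq {r : ℝ} (hr : 0 < r) : qq r = (r - 1) ^ 2 / r := by unfold qq; field_simp; ring

theorem qq_nonneg {r : ℝ} (hr : 0 < r) : 0 ≤ qq r := by rw [qq_eq hr]; positivity

theorem qq_aux {r η : ℝ} (hr : 1 ≤ r) (hη : 0 < η) : r - r⁻¹ ≤ η + (1 + η⁻¹) * qq r := by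
  have h0 : 0 < r := by linarith
  have h1 : r⁻¹ ≤ 1 := inv_le_one_of_one_le₀ hr
  have h2 : 0 < r⁻¹ := inv_pos.2 h0
  have h3 : (1 - r⁻¹) ^ 2 ≤ qq r := by
    have e : qq r = r * (1 - r⁻¹) ^ 2 := by unfold qq; field_simp; ring
    rw [e]
    exact le_mul_of_one_le_left (sq_nonneg _) hr
  have h4 : 2 * (1 - r⁻¹) ≤ η + η⁻¹ * (1 - r⁻¹) ^ 2 := by
    have e : η + η⁻¹ * (1 - r⁻¹) ^ 2 - 2 * (1 - r⁻¹) = η⁻¹ * (η - (1 - r⁻¹)) ^ 2 := by
      field_simp; ring
    have : 0 ≤ η⁻¹ * (η - (1 - r⁻¹)) ^ 2 := by positivity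
    linarith
  have h5 := mul_le_mul_of_nonneg_left h3 (inv_pos.2 hη).le
  have h6 : r - r⁻¹ = qq r + 2 * (1 - r⁻¹) := by unfold qq; ring
  rw [h6, add_mul]
  linarith

theorem qq_bound {r η : ℝ} (hr : 0 < r) (hη : 0 < η) :
    |r - 1| ≤ η + (1 + η⁻¹) * qq r ∧ |log r| ≤ η + (1 + η⁻¹) * qq r := by
  have l1 := log_le_sub_one_of_pos hr
  have l2 := log_le_sub_one_of_pos (inv_pos.2 hr)
  rw [log_inv] at l2
  rcases le_total 1 r with h | h
  · have h1 := qq_aux h hη
    have h2 : r⁻¹ ≤ 1 := inv_le_one_of_one_le₀ h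
    constructor <;> rw [abs_le] <;> constructor <;> linarith
  · have h2 : 1 ≤ r⁻¹ := (one_le_inv₀ hr).2 h
    have h1 := qq_aux h2 hη
    rw [inv_inv, qq_inv] at h1
    constructor <;> rw [abs_le] <;> constructor <;> linarith

namespace Sys

theorem cm_div (S : Sys P F w W k a ε b u U) (x y : Site d) :
    CM mΩ fun t ω => U t y ω / U t x ω :=
  ⟨fun ω => (S.cU y ω).div (S.cU x ω) fun t => (S.pos t x ω).ne',
    fun t => (S.hN.mU t y).div (S.hN.mU t x)⟩

theorem cm_qq (S : Sys P F w W k a ε b u U) (x y : Site d) :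
    CM mΩ fun t ω => qq (U t y ω / U t x ω) :=
  ⟨fun ω => (((S.cm_div x y).cont ω).add (((S.cm_div x y).cont ω).inv₀
      fun t => (div_pos (S.pos t y ω) (S.pos t x ω)).ne')).sub continuous_const,
    fun t => (((S.cm_div x y).meas t).add ((S.cm_div x y).meas t).inv).sub measurable_const⟩

theorem log_ineq (S : Sys P F w W k a ε b u U) (x : Site d) {T : ℝ≥0} {m c δ : ℝ} (hδ : 0 < δ)
    (hm : HI P (U T x) m) (hc : HJ P T (fun t ω => U t x ω ^ b) c) :
    HL P T (fun t ω => k * ∑ i : Fin d,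
      (U t (x + Pi.single i 1) ω / U t x ω + U t (x - Pi.single i 1) ω / U t x ω))
      (δ * m - log δ + (2 * d * k - a + 1 / 2) * T + ε * c) := by
  have := S.h.prob
  set g : ℝ≥0 → Ω → ℝ := fun t ω => k * ∑ i : Fin d,
    (U t (x + Pi.single i 1) ω / U t x ω + U t (x - Pi.single i 1) ω / U t x ω) with hg
  have cg : CM mΩ g :=
    ⟨fun ω => (continuous_finsetSum _ fun i _ =>
      ((S.cm_div x _).cont ω).add ((S.cm_div x _).cont ω)).const_mul k,
    fun t => (Finset.measurable_sum _ fun i _ =>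
      ((S.cm_div x _).meas t).add ((S.cm_div x _).meas t)).const_mul k⟩
  have g0 : ∀ t ω, 0 ≤ g t ω := fun t ω => mul_nonneg S.hk (Finset.sum_nonneg fun i _ =>
    add_nonneg (div_pos (S.pos _ _ _) (S.pos _ _ _)).le (div_pos (S.pos _ _ _) (S.pos _ _ _)).le)
  have hW : HI P (W x T) 0 := HI_ae (HI_w_id S.h x T) (S.hN.ae.mono fun ω hω => (hω.2 _ _).symm)
  have hB := ((((hm.const_mul δ).sub hW).add
    (HI.const (-log δ + (2 * d * k - a + 1 / 2) * T))).add (hc.path.const_mul ε))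
  have le : ∀ ω, In (fun t => g t ω) T ≤ δ * U T x ω - W x T ω +
      (-log δ + (2 * d * k - a + 1 / 2) * T) + ε * In (fun t => U t x ω ^ b) T := fun ω => by
    have l1 := (S.hN.good ω).logid T x
    have c1 := (S.cm_pow x b).cont ω
    have e : In (fun r => k * Rr (fun y => U r y ω) x + a - ε * U r x ω ^ b) T =
        In (fun t => g t ω) T + (a - 2 * d * k) * T - ε * In (fun t => U t x ω ^ b) T := by
      rw [← In_mul, ← In_const, ← In_add (cg.cont ω) continuous_const,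
        ← In_sub (f := fun t => g t ω + (a - 2 * d * k)) ((cg.cont ω).add continuous_const)
          (c1.const_mul ε)]
      refine In_congr fun r _ => ?_
      have : Rr (fun y => U r y ω) x = ∑ i : Fin d,
          (U r (x + Pi.single i 1) ω / U r x ω + U r (x - Pi.single i 1) ω / U r x ω) - 2 * d := by
        have h2 : (2 * d : ℝ) = ∑ _i : Fin d, (2 : ℝ) := by simp [mul_comm]
        rw [h2, ← Finset.sum_sub_distrib]
        exact Finset.sum_congr rfl fun i _ => by ring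
      rw [this, hg]
      ring
    have l2 := log_le_sub_one_of_pos (mul_pos hδ (S.pos T x ω))
    rw [log_mul hδ.ne' (S.pos T x ω).ne'] at l2
    rw [e] at l1
    linarith
  have i : Integrable (fun ω => In (fun t => g t ω) T) P :=
    hB.1.mono' (cg.meas_In T).aestronglyMeasurable (ae_of_all _ fun ω => by
      rw [Real.norm_of_nonneg (In_nonneg (fun t => g0 t ω) T)]; exact le ω)
  refine ⟨_, cg.of_path g0 ⟨i, rfl⟩, (HI_le ⟨i, rfl⟩ hB le).trans (le_of_eq ?_)⟩
  ring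

theorem edgeQ (S : Sys P F w W k a ε b u U) (hk : 0 < k) {T : ℝ≥0} {m c δ : ℝ} (hδ : 0 < δ)
    (hm : HI P (U T 0) m) (hc : HJ P T (fun t ω => U t 0 ω ^ b) c) :
    ∃ Q : ℝ, k * Q ≤ δ * m - log δ + (1 / 2 - a) * T + ε * c ∧ ∀ (y : Site d) (i : Fin d),
      HL P T (fun t ω => qq (U t (y + Pi.single i 1) ω / U t y ω)) Q ∧
      HL P T (fun t ω => qq (U t (y - Pi.single i 1) ω / U t y ω)) Q := by
  have := S.h.prob
  obtain ⟨R, hR, hle⟩ := S.log_ineq 0 hδ hm hc
  have p0 : ∀ t x y ω, 0 < U t y ω / U t x ω := fun t x y ω => div_pos (S.pos _ _ _) (S.pos _ _ _)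
  have b0 : ∀ (i : Fin d) t ω, U t (0 + Pi.single i 1) ω / U t 0 ω +
      U t (0 - Pi.single i 1) ω / U t 0 ω ≤ k⁻¹ * (k * ∑ i : Fin d,
        (U t (0 + Pi.single i 1) ω / U t 0 ω + U t (0 - Pi.single i 1) ω / U t 0 ω)) := by
    intro i t ω
    rw [inv_mul_cancel_left₀ hk.ne']
    exact Finset.single_le_sum (f := fun i : Fin d => U t (0 + Pi.single i 1) ω / U t 0 ω +
      U t (0 - Pi.single i 1) ω / U t 0 ω) (fun j _ => (add_pos (p0 _ _ _ _) (p0 _ _ _ _)).le)
      (Finset.mem_univ i)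
  choose p hp _ using fun i : Fin d => (hR.const_mul k⁻¹).of_le (S.cm_div 0 (0 + Pi.single i 1))
    fun t ω => by
      rw [abs_of_pos (p0 _ _ _ _)]
      exact (le_add_of_nonneg_right (p0 _ _ _ _).le).trans (b0 i t ω)
  choose n hn _ using fun i : Fin d => (hR.const_mul k⁻¹).of_le (S.cm_div 0 (0 - Pi.single i 1))
    fun t ω => by
      rw [abs_of_pos (p0 _ _ _ _)]
      exact (le_add_of_nonneg_left (p0 _ _ _ _).le).trans (b0 i t ω)
  have e1 := hR.unique ((HJ.sum Finset.univ fun i _ => (hp i).add (hn i)).const_mul k)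
  have hq : ∀ i : Fin d, HJ P T (fun t ω => qq (U t (0 + Pi.single i 1) ω / U t 0 ω))
      (p i + n i - 2 * T) := fun i => by
    have h1 : HJ P T (fun t ω => U t 0 ω / U t (0 + Pi.single i 1) ω) (n i) :=
      (hn i).ident (S.cm_div _ _) (S.cm_div _ _) fun t => by
        have := S.ident t 0 (0 - Pi.single i 1) (Pi.single i 1) (φ := fun r s => s / r)
          (by fun_prop)
        rwa [sub_add_cancel] at this
    exact (((hp i).add h1).sub (HJ.const 2)).congr (fun t ω => by rw [qq, inv_div]) rfl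
  have q0 : ∀ i, 0 ≤ p i + n i - 2 * T := fun i => (hq i).nonneg fun t ω => qq_nonneg (p0 _ _ _ _)
  have hy : ∀ (y : Site d) (i : Fin d), HL P T (fun t ω => qq (U t (y + Pi.single i 1) ω / U t y ω))
      (∑ i, (p i + n i - 2 * T)) := fun y i => by
    refine ⟨_, (hq i).ident (S.cm_qq _ _) (S.cm_qq _ _) fun t => ?_,
      Finset.single_le_sum (f := fun i => p i + n i - 2 * (T : ℝ)) (fun j _ => q0 j)
        (Finset.mem_univ i)⟩
    have := S.ident t 0 (0 + Pi.single i 1) y (φ := fun r s => qq (s / r)) (by unfold qq; fun_prop)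
    rwa [zero_add y, add_right_comm, zero_add y] at this
  refine ⟨∑ i, (p i + n i - 2 * T), ?_, fun y i => ⟨hy y i, ?_⟩⟩
  · rw [Finset.sum_sub_distrib, mul_sub, ← e1]
    simp only [Finset.sum_const, Finset.card_univ, Fintype.card_fin, nsmul_eq_mul]
    linarith
  · obtain ⟨q, h1, h2⟩ := hy (y - Pi.single i 1) i
    exact ⟨q, h1.congr (fun t ω => by rw [sub_add_cancel, ← qq_inv, inv_div]) rfl, h2⟩

end Sys

/-- deterministic form of the edge estimate -/
theorem edge_det {V Z D H : ℝ≥0 → ℝ} {L : ℝ≥0 → ℝ} (cV : Continuous V) (cZ : Continuous Z)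
    (cD : Continuous D) (cH : Continuous H) (hL : ∀ t, L t = V t + In H t) (hZ : ∀ t, |L t| ≤ Z t)
    (hD : ∀ t, |H t| ≤ D t) (T : ℝ≥0) :
    In (fun s => |V (s + 1) - V s|) T ≤ 2 * In Z (T + 1) + In D (T + 1) := by
  have z0 : ∀ t, 0 ≤ Z t := fun t => (abs_nonneg _).trans (hZ t)
  have d0 : ∀ t, 0 ≤ D t := fun t => (abs_nonneg _).trans (hD t)
  have cA := continuous_In cD
  have c1 : Continuous fun s : ℝ≥0 => s + 1 := by fun_prop
  have h1 : ∀ s, |V (s + 1) - V s| ≤ Z (s + 1) + Z s + (In D (s + 1) - In D s) := fun s => by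
    have a1 := In_mono_time (cD.sub cH) (g := fun t => D t - H t)
      (fun t => sub_nonneg.2 (abs_le.1 (hD t)).2) (le_self_add : s ≤ s + 1)
    have a2 := In_mono_time (cD.add cH) (g := fun t => D t + H t)
      (fun t => by linarith [(abs_le.1 (hD t)).1]) (le_self_add : s ≤ s + 1)
    have a3 := In_sub cD cH
    have a4 := In_add cD cH
    have a5 := abs_le.1 (hZ s)
    have a6 := abs_le.1 (hZ (s + 1))
    rw [hL] at a5 a6
    rw [a4, a4] at a2
    rw [a3, a3] at a1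
    rw [abs_le]
    constructor <;> linarith [a5.1, a5.2, a6.1, a6.2]
  refine (In_mono ((cV.comp c1).sub cV).abs
    (((cZ.comp c1).add cZ).add ((cA.comp c1).sub cA)) fun s _ => h1 s).trans ?_
  have e1 := In_add (f := fun t => Z (t + 1) + Z t) (f' := fun t => In D (t + 1) - In D t)
    ((cZ.comp c1).add cZ) ((cA.comp c1).sub cA) T
  have e2 := In_add (f := fun t => Z (t + 1)) (cZ.comp c1) cZ T
  have e3 := In_sub (f := fun t => In D (t + 1)) (cA.comp c1) cA T
  have e4 := In_shift cZ T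
  have e5 := In_shift cA T
  have b1 := In_nonneg z0 1
  have b2 := In_mono_time cZ z0 (le_self_add : T ≤ T + 1)
  have b3 := In_nonneg (In_nonneg d0) 1
  have b4 : In (In D) (T + 1) - In (In D) T ≤ In D (T + 1) := by
    rw [In_sub_In cA]
    have hT : (T : ℝ) ≤ (T + 1 : ℝ≥0) := by exact_mod_cast (le_self_add : T ≤ T + 1)
    refine (intervalIntegral.integral_mono_on hT (intInt cA _ _)
      (intervalIntegrable_const (c := In D (T + 1))) fun r hr =>
        In_mono_time cD d0 (Real.toNNReal_le_iff_le_coe.2 hr.2)).trans (le_of_eq ?_)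
    simp
  refine (le_of_eq e1).trans ?_
  rw [e2, e3, e4, e5]
  linarith

end Pool.Agent.Lib.MP_0db9b2_pr.PT
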