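import Pool.Agent.Lib.MP_0db9b2_pr.ExIto

/-
Integration over time and chance for fields with continuous paths; Cesaro estimates.
-/

set_option autoImplicit false

namespace Pool.Agent.Lib.MP_0db9b2_pr.PT

open MeasureTheory ProbabilityTheory Real Filter
open scoped NNReal ENNReal Topology

variable {Ω : Type*} {mΩ : MeasurableSpace Ω} {P : Measure Ω}

/-- continuous paths and measurable marginals -/
structure CM (mΩ : MeasurableSpace Ω) (g : ℝ≥0 → Ω → ℝ) : Prop where
  cont : ∀ ω, Continuous fun t => g t ω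
  meas : ∀ t, Measurable (g t)

noncomputable def QT (P : Measure Ω) (T : ℝ≥0) : Measure (Ω × ℝ) :=
  P.prod (volume.restrict (Set.Ioc (0 : ℝ) T))

noncomputable def lift (g : ℝ≥0 → Ω → ℝ) (z : Ω × ℝ) : ℝ := g z.2.toNNReal z.1

/-- g is integrable over chance and the time interval up to T, with integral c -/
def HJ (P : Measure Ω) (T : ℝ≥0) (g : ℝ≥0 → Ω → ℝ) (c : ℝ) : Prop := HI (QT P T) (lift g) c

variable {g g' : ℝ≥0 → Ω → ℝ} {T : ℝ≥0} {c c' : ℝ}

theorem CM.lift_meas (h : CM mΩ g) : Measurable (lift g) :=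
  (measurable_uncurry_of_continuous_of_measurable h.cont h.meas).comp
    ((measurable_real_toNNReal.comp measurable_snd).prodMk measurable_fst)

theorem In_eq (f : ℝ≥0 → ℝ) (T : ℝ≥0) :
    In f T = ∫ r, f r.toNNReal ∂(volume.restrict (Set.Ioc (0 : ℝ) T)) :=
  intervalIntegral.integral_of_le T.coe_nonneg

theorem CM.meas_In (h : CM mΩ g) (T : ℝ≥0) : Measurable fun ω => In (fun t => g t ω) T := by
  simp_rw [In_eq]
  exact (h.lift_meas.stronglyMeasurable.integral_prod_right'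
    (ν := volume.restrict (Set.Ioc (0 : ℝ) T))).measurable

theorem HJ.add (h : HJ P T g c) (h' : HJ P T g' c') :
    HJ P T (fun t ω => g t ω + g' t ω) (c + c') := HI.add h h'

theorem HJ.sub (h : HJ P T g c) (h' : HJ P T g' c') :
    HJ P T (fun t ω => g t ω - g' t ω) (c - c') := HI.sub h h'

theorem HJ.const_mul (h : HJ P T g c) (r : ℝ) : HJ P T (fun t ω => r * g t ω) (r * c) :=
  HI.const_mul h r

theorem HJ.sum {ι : Type*} (s : Finset ι) {f : ι → ℝ≥0 → Ω → ℝ} {a : ι → ℝ}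
    (h : ∀ i ∈ s, HJ P T (f i) (a i)) : HJ P T (fun t ω => ∑ i ∈ s, f i t ω) (∑ i ∈ s, a i) :=
  HI.sum (P := QT P T) s (f := fun i => lift (f i)) h

theorem HJ.congr (h : HJ P T g c) (e : ∀ t ω, g' t ω = g t ω) (e' : c' = c) : HJ P T g' c' :=
  HI.congr h (fun _ => e _ _) e'

theorem HJ.le (h : HJ P T g c) (h' : HJ P T g' c') (e : ∀ t ω, g t ω ≤ g' t ω) : c ≤ c' := by
  rw [← h.2, ← h'.2]
  exact integral_mono h.1 h'.1 fun _ => e _ _

theorem HJ.nonneg (h : HJ P T g c) (e : ∀ t ω, 0 ≤ g t ω) : 0 ≤ c := by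
  rw [← h.2]
  exact integral_nonneg fun _ => e _ _

theorem HJ.unique (h : HJ P T g c) (h' : HJ P T g c') : c = c' := h.2.symm.trans h'.2

theorem HJ.of_le (h : HJ P T g c) (m : CM mΩ g') (e : ∀ t ω, |g' t ω| ≤ g t ω) :
    ∃ c', HJ P T g' c' ∧ c' ≤ c := by
  have i : Integrable (lift g') (QT P T) :=
    h.1.mono' m.lift_meas.aestronglyMeasurable (ae_of_all _ fun _ => e _ _)
  exact ⟨_, ⟨i, rfl⟩, HJ.le ⟨i, rfl⟩ h fun t ω => (le_abs_self _).trans (e t ω)⟩

variable [IsProbabilityMeasure P]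

theorem HJ.const (r : ℝ) : HJ P T (fun _ _ => r) (r * T) := by
  have : IsFiniteMeasure (QT P T) := by unfold QT; infer_instance
  refine ⟨integrable_const r, ?_⟩
  have e : lift (fun (_ : ℝ≥0) (_ : Ω) => r) = fun _ => r := rfl
  rw [e, integral_const, QT, ← Set.univ_prod_univ, measureReal_prod_prod]
  simp [mul_comm]

theorem HJ.path (h : HJ P T g c) : HI P (fun ω => In (fun t => g t ω) T) c := by
  simp_rw [In_eq]
  exact ⟨h.1.integral_prod_left, (integral_prod _ h.1).symm.trans h.2⟩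

theorem HJ.time (h : HJ P T g c) : c = In (fun t => ∫ ω, g t ω ∂P) T := by
  rw [In_eq, ← h.2]
  exact integral_prod_symm _ h.1

theorem CM.of_path (h : CM mΩ g) (h0 : ∀ t ω, 0 ≤ g t ω)
    (hi : HI P (fun ω => In (fun t => g t ω) T) c) : HJ P T g c := by
  have i : Integrable (lift g) (QT P T) := by
    refine (integrable_prod_iff h.lift_meas.aestronglyMeasurable).2 ⟨ae_of_all _ fun ω => ?_, ?_⟩
    · exact (intervalIntegrable_iff_integrableOn_Ioc_of_le T.coe_nonneg).1 (intInt (h.cont ω) 0 T)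
    · refine hi.1.congr (ae_of_all _ fun ω => ?_)
      simp only [In_eq, lift, Real.norm_of_nonneg (h0 _ _)]
  exact ⟨i, (HJ.path ⟨i, rfl⟩).2.symm.trans hi.2⟩

theorem CM.of_bound (h : CM mΩ g) {C : ℝ}
    (hC : ∀ t ≤ T, Integrable (g t) P ∧ ∫ ω, |g t ω| ∂P ≤ C) : ∃ c, HJ P T g c := by
  have hC' : ∀ᵐ r ∂(volume.restrict (Set.Ioc (0 : ℝ) T)),
      Integrable (g r.toNNReal) P ∧ ∫ ω, |g r.toNNReal ω| ∂P ≤ C := by
    filter_upwards [ae_restrict_mem measurableSet_Ioc] with r hr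
    exact hC _ (Real.toNNReal_le_iff_le_coe.2 hr.2)
  refine ⟨_, (integrable_prod_iff' h.lift_meas.aestronglyMeasurable).2
    ⟨hC'.mono fun r hr => hr.1, (integrable_const C).mono'
      (h.lift_meas.norm.stronglyMeasurable.integral_prod_left' (μ := P)).aestronglyMeasurable ?_⟩,
    rfl⟩
  filter_upwards [hC'] with r hr
  rw [Real.norm_of_nonneg (integral_nonneg fun _ => norm_nonneg _)]
  exact hr.2

theorem CM.of_bdd (h : CM mΩ g) {K : ℝ} (hK : ∀ t ω, |g t ω| ≤ K) (T : ℝ≥0) :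
    ∃ c, HJ P T g c :=
  ((HJ.const (P := P) (T := T) K).of_le h hK).imp fun _ h => h.1

theorem HJ.ident (h : HJ P T g c) (m : CM mΩ g) (m' : CM mΩ g')
    (e : ∀ t, IdentDistrib (g t) (g' t) P P) : HJ P T g' c := by
  have i : IdentDistrib (lift g) (lift g') (QT P T) (QT P T) := by
    refine ⟨m.lift_meas.aemeasurable, m'.lift_meas.aemeasurable, Measure.ext fun s hs => ?_⟩
    rw [Measure.map_apply m.lift_meas hs, Measure.map_apply m'.lift_meas hs, QT,
      Measure.prod_apply_symm (m.lift_meas hs), Measure.prod_apply_symm (m'.lift_meas hs)]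
    exact lintegral_congr fun r => (e r.toNNReal).measure_mem_eq hs
  exact ⟨i.integrable_iff.1 h.1, i.integral_eq.symm.trans h.2⟩

theorem In_const (r : ℝ) (T : ℝ≥0) : In (fun _ => r) T = r * T := by
  simp [In, mul_comm]

theorem In_congr {f f' : ℝ≥0 → ℝ} (h : ∀ s ≤ T, f s = f' s) : In f T = In f' T :=
  intervalIntegral.integral_congr fun r hr => by
    rw [Set.uIcc_of_le T.coe_nonneg] at hr
    exact h _ (Real.toNNReal_le_iff_le_coe.2 hr.2)

theorem In_add {f f' : ℝ≥0 → ℝ} (hf : Continuous f) (hf' : Continuous f') (T : ℝ≥0) :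
    In (fun t => f t + f' t) T = In f T + In f' T :=
  intervalIntegral.integral_add (intInt hf _ _) (intInt hf' _ _)

theorem In_sub {f f' : ℝ≥0 → ℝ} (hf : Continuous f) (hf' : Continuous f') (T : ℝ≥0) :
    In (fun t => f t - f' t) T = In f T - In f' T :=
  intervalIntegral.integral_sub (intInt hf _ _) (intInt hf' _ _)

theorem In_mul (r : ℝ) (f : ℝ≥0 → ℝ) (T : ℝ≥0) : In (fun t => r * f t) T = r * In f T :=
  intervalIntegral.integral_const_mul _ _

theorem In_shift {f : ℝ≥0 → ℝ} (hf : Continuous f) (T : ℝ≥0) :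
    In (fun t => f (t + 1)) T = In f (T + 1) - In f 1 := by
  rw [In_sub_In hf, In]
  have e := intervalIntegral.integral_comp_add_right (a := 0) (b := (T : ℝ))
    (fun r : ℝ => f r.toNNReal) 1
  rw [zero_add] at e
  rw [NNReal.coe_add, NNReal.coe_one, ← e]
  refine intervalIntegral.integral_congr fun r hr => ?_
  rw [Set.uIcc_of_le T.coe_nonneg] at hr
  simp only [Real.toNNReal_add hr.1 zero_le_one, Real.toNNReal_one]

theorem lin_le {α β C : ℝ} (h : ∀ T : ℝ≥0, α * T ≤ β * T + C) : α ≤ β := by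
  by_contra hc
  rw [not_le] at hc
  have h1 : 0 < α - β := by linarith
  have h2 : α * ((|C| + 1) / (α - β)) ≤ β * ((|C| + 1) / (α - β)) + C :=
    h ⟨(|C| + 1) / (α - β), by positivity⟩
  have h3 : (α - β) * ((|C| + 1) / (α - β)) = |C| + 1 := by field_simp
  nlinarith [le_abs_self C]

/-- Cesaro estimate -/
theorem cesaro {f : ℝ≥0 → ℝ} (hf : Continuous f) {L : ℝ} (hL : Tendsto f atTop (𝓝 L)) {δ : ℝ}
    (hδ : 0 < δ) : ∃ C : ℝ, ∀ T : ℝ≥0, |In f T - L * T| ≤ δ * T + C := by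
  obtain ⟨T0, h0⟩ := eventually_atTop.1 (Metric.tendsto_nhds.1 hL δ hδ)
  obtain ⟨K, hK0, hK⟩ := exists_bound (hf.sub (continuous_const (y := L))) T0
  refine ⟨K * T0, fun T => ?_⟩
  rw [← In_const, ← In_sub hf continuous_const]
  have hc : Continuous fun t => f t - L := hf.sub continuous_const
  have b1 : ∀ S : ℝ≥0, S ≤ T0 → |In (fun t => f t - L) S| ≤ K * T0 := fun S hS => by
    refine (intervalIntegral.norm_integral_le_of_norm_le_const (C := K)
      (f := fun r : ℝ => f r.toNNReal - L) fun r hr => ?_).trans ?_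
    · rw [Set.uIoc_of_le S.coe_nonneg] at hr
      exact hK _ ((Real.toNNReal_le_iff_le_coe.2 hr.2).trans hS)
    · rw [sub_zero, abs_of_nonneg S.coe_nonneg]
      exact mul_le_mul_of_nonneg_left hS hK0.le
  rcases le_total T T0 with hT | hT
  · have := b1 T hT
    have : 0 ≤ δ * T := by positivity
    linarith
  · have e := In_sub_In hc T0 T
    have b2 : |∫ r in (T0 : ℝ)..T, (f r.toNNReal - L)| ≤ δ * |(T : ℝ) - T0| :=
      intervalIntegral.norm_integral_le_of_norm_le_const (C := δ)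
        (f := fun r : ℝ => f r.toNNReal - L) fun r hr => by
        rw [Set.uIoc_of_le (by exact_mod_cast hT)] at hr
        exact (h0 _ ((Real.le_toNNReal_iff_coe_le (T0.coe_nonneg.trans hr.1.le)).2 hr.1.le)).le
    have hT' : (T0 : ℝ) ≤ T := hT
    rw [← e, abs_of_nonneg (sub_nonneg.2 hT')] at b2
    have b3 := b1 T0 le_rfl
    have b4 : 0 ≤ δ * T0 := by positivity
    rw [abs_le] at b2 b3 ⊢
    constructor <;> linarith [b2.1, b2.2, b3.1, b3.2]

theorem CM.cont_int (h : CM mΩ g) {K : ℝ} (hK : ∀ t ω, |g t ω| ≤ K) :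
    Continuous fun t => ∫ ω, g t ω ∂P :=
  continuous_of_dominated (fun t => (h.meas t).aestronglyMeasurable)
    (fun t => ae_of_all _ (hK t)) (integrable_const K) (ae_of_all _ h.cont)

/-- Cesaro estimate for a bounded field whose mean converges -/
theorem CM.cesaro (h : CM mΩ g) {K : ℝ} (hK : ∀ t ω, |g t ω| ≤ K) {L : ℝ}
    (hL : Tendsto (fun t => ∫ ω, g t ω ∂P) atTop (𝓝 L)) {δ : ℝ} (hδ : 0 < δ) :
    ∃ C : ℝ, ∀ T : ℝ≥0, ∃ c, HJ P T g c ∧ |c - L * T| ≤ δ * T + C := by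
  obtain ⟨C, hC⟩ := PT.cesaro (h.cont_int (P := P) hK) hL hδ
  refine ⟨C, fun T => ?_⟩
  obtain ⟨c, hc⟩ := h.of_bdd (P := P) hK T
  exact ⟨c, hc, hc.time ▸ hC T⟩

end Pool.Agent.Lib.MP_0db9b2_pr.PT
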