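import Pool.Agent.Lib.MP_0db9b2_pr.PT.Path

/-
Invariance in law under spatial shifts, a test function, increments along an edge.
-/

set_option autoImplicit false

namespace Pool.Agent.Lib.MP_0db9b2_pr.PT

open MeasureTheory ProbabilityTheory Real Filter
open scoped NNReal ENNReal Topology

variable {d : ℕ} {Ω : Type*} {mΩ : MeasurableSpace Ω}
variable {P : Measure Ω} {F : Filtration ℝ≥0 mΩ} {w : Site d → ℝ≥0 → Ω → ℝ} {k a ε : ℝ} {b : ℕ}
  {u : ℝ≥0 → Site d → Ω → ℝ}

theorem Vn_shift (n l : ℕ) (x y : Site d) (ϖ : Path d) :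
    Vn k a ε b n l x (theta y ϖ) = Vn k a ε b n l (x + y) ϖ :=
  flow_shift (q := par d k a ε b n) (noise n ϖ) 1 y l x

theorem integral_theta (h : Noise P F w) (y : Site d) {φ : Path d → ℝ} (hφ : Measurable φ) :
    ∫ ω, φ (theta y (pathOf w ω)) ∂P = ∫ ω, φ (pathOf w ω) ∂P := by
  have := h.wiener_prob
  have e := (measurePreserving_theta (d := d) (Noise.wiener P w) y).map_eq
  rw [← h.law_path, Measure.map_map (measurable_theta y) h.meas_path] at e
  rw [← integral_map h.meas_path.aemeasurable hφ.aestronglyMeasurable, ← e,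
    integral_map ((measurable_theta y).comp h.meas_path).aemeasurable hφ.aestronglyMeasurable]
  rfl

theorem ident_shift (h : Noise P F w) (hu : Sol P F w k a ε b u) (hk : 0 ≤ k) (hε : 0 < ε)
    (hb : b ≠ 0) {ι : Type} [Fintype ι] (t : ℝ≥0) (p : ι → Site d) (y : Site d) :
    IdentDistrib (fun ω i => u t (p i) ω) (fun ω i => u t (p i + y) ω) P P := by
  have := h.prob
  have m : ∀ q : ι → Site d, Measurable fun ω i => u t (q i) ω :=
    fun q => measurable_pi_lambda _ fun i => hu.meas _ _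
  refine ⟨(m p).aemeasurable, (m _).aemeasurable, ?_⟩
  refine tendstoInDistribution_unique (l := (atTop : Filter ℕ)) (μ := fun _ => P)
    (fun _ ω i => u t (p i) ω) (tendstoInDistribution_const (m p).aemeasurable)
    ⟨fun _ => (m p).aemeasurable, (m _).aemeasurable, ?_⟩
  refine tendsto_iff_forall_lipschitz_integral_tendsto.2 ?_
  rintro f ⟨C, hC⟩ ⟨L, hL⟩
  have mf := hL.continuous.measurable
  simp only [ProbabilityMeasure.coe_mk]
  rw [integral_map (m _).aemeasurable mf.aestronglyMeasurable,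
    integral_map (m _).aemeasurable mf.aestronglyMeasurable]
  refine Metric.tendsto_nhds.2 fun η hη => Eventually.of_forall fun _ => ?_
  set η' : ℝ := η / (2 * (L * Fintype.card ι) + 1) with hη'
  have p' : 0 < η' := by positivity
  obtain ⟨n, e1, e2, hn, hq⟩ := ((eventually_all.2 fun i => hu.convT h hk hε hb t 0 (p i) p').and
    ((eventually_all.2 fun i => hu.convT h hk hε hb t 0 (p i + y) p').and
      (par_good (d := d) (a := a) hk hε hb))).exists
  rw [add_zero] at e1 e2
  have c1 := lip_bound (Q := P)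
    (X := fun i ω => Vn k a ε b n (fl t n + fl 0 n) (p i) (pathOf w ω))
    (Y := fun i ω => u t (p i) ω)
    (fun i => (measurable_Vn _ _ _).comp h.meas_path) (fun i => hu.meas _ _)
    (fun i => h.flow_int hq n _ zero_le_one _) (fun i => hu.int_u h _ _) hC hL e1
  have c2 := lip_bound (Q := P)
    (X := fun i ω => Vn k a ε b n (fl t n + fl 0 n) (p i + y) (pathOf w ω))
    (Y := fun i ω => u t (p i + y) ω)
    (fun i => (measurable_Vn _ _ _).comp h.meas_path) (fun i => hu.meas _ _)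
    (fun i => h.flow_int hq n _ zero_le_one _) (fun i => hu.int_u h _ _) hC hL e2
  have c3 := integral_theta h y (φ := fun ϖ => f fun i => Vn k a ε b n (fl t n + fl 0 n) (p i) ϖ)
    (mf.comp (measurable_pi_lambda _ fun i => measurable_Vn _ _ _))
  simp only [Vn_shift] at c3
  rw [c3] at c2
  rw [Real.dist_eq]
  have c4 : (2 * (L * Fintype.card ι) + 1) * η' = η := by rw [hη']; field_simp
  rw [abs_le] at c1 c2
  rw [abs_lt]
  constructor <;> linarith [c1.1, c1.2, c2.1, c2.2]

theorem ident_pair (h : Noise P F w) (hu : Sol P F w k a ε b u) (hk : 0 ≤ k) (hε : 0 < ε)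
    (hb : b ≠ 0) (t : ℝ≥0) (x x' y : Site d) {φ : ℝ → ℝ → ℝ}
    (hφ : Measurable fun z : ℝ × ℝ => φ z.1 z.2) :
    IdentDistrib (fun ω => φ (u t x ω) (u t x' ω)) (fun ω => φ (u t (x + y) ω) (u t (x' + y) ω))
      P P :=
  (ident_shift h hu hk hε hb t ![x, x'] y).comp (u := fun f : Fin 2 → ℝ => φ (f 0) (f 1))
    (hφ.comp (f := fun f : Fin 2 → ℝ => (f 0, f 1))
      ((measurable_pi_apply 0).prodMk (measurable_pi_apply 1)))

/-- the test function min(|y|, 1) -/
noncomputable def ph (y : ℝ) : ℝ := min |y| 1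

theorem ph_cont : Continuous ph := by unfold ph; fun_prop

theorem ph_nonneg (y : ℝ) : 0 ≤ ph y := le_min (abs_nonneg _) zero_le_one

theorem ph_le (y : ℝ) : |ph y| ≤ 1 := by
  rw [abs_of_nonneg (ph_nonneg y)]; exact min_le_right _ _

theorem ph_eq_zero {y : ℝ} : ph y = 0 ↔ y = 0 := by
  unfold ph
  rcases le_total |y| 1 with h | h
  · rw [min_eq_left h, abs_eq_zero]
  · rw [min_eq_right h]
    refine ⟨fun e => absurd e one_ne_zero, fun e => ?_⟩
    rw [e, abs_zero] at h; linarith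

theorem ph_lip (y z : ℝ) : ph y ≤ ph z + |y - z| := by
  have := abs_sub_abs_le_abs_sub y z
  have := abs_nonneg (y - z)
  unfold ph
  rcases le_total |z| 1 with h | h
  · rw [min_eq_left h]; exact (min_le_left _ _).trans (by linarith)
  · rw [min_eq_right h]; exact (min_le_right _ _).trans (by linarith)

theorem ph_int [IsProbabilityMeasure P] {X : Ω → ℝ} (m : Measurable X) :
    Integrable (fun ω => ph (X ω)) P :=
  (integrable_const 1).mono' (ph_cont.measurable.comp m).aestronglyMeasurable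
    (ae_of_all _ fun _ => ph_le _)

theorem ph_L1 [IsProbabilityMeasure P] {X Y : Ω → ℝ} (mX : Measurable X) (mY : Measurable Y)
    (iX : Integrable X P) (iY : Integrable Y P) :
    ∫ ω, ph (X ω) ∂P ≤ ∫ ω, ph (Y ω) ∂P + ∫ ω, |X ω - Y ω| ∂P := by
  refine le_trans (integral_mono (ph_int mX) ((ph_int mY).add (iX.sub iY).abs)
    fun ω => ph_lip _ _) (le_of_eq ?_)
  exact integral_add (ph_int mY) (iX.sub iY).abs

theorem HI_w (h : Noise P F w) (x : Site d) (t : ℝ≥0) {g : ℝ → ℝ} (hg : Measurable g) {c : ℝ}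
    (hi : HI (gaussianReal 0 t) g c) : HI P (fun ω => g (w x t ω)) c := by
  have hl := (h.br x).toIsPreBrownianReal.hasLaw_eval t
  refine ⟨?_, (hl.integral_comp hg.aestronglyMeasurable).trans hi.2⟩
  have h1 := hi.1
  rw [← hl.map_eq] at h1
  exact (integrable_map_measure hg.aestronglyMeasurable hl.aemeasurable).1 h1

theorem HI_w_id (h : Noise P F w) (x : Site d) (t : ℝ≥0) : HI P (w x t) 0 :=
  HI_w h x t (g := fun y => y) measurable_id
    ((HI_id_exp t 0).congr (fun y => by simp) (by simp))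

theorem edge_const (h : Noise P F w) {x x' : Site d} (hx : x ≠ x') : ∃ c : ℝ, 0 < c ∧ ∀ s : ℝ≥0,
    HI P (fun ω => |(w x' (s + 1) ω - w x' s ω) - (w x (s + 1) ω - w x s ω)|) c := by
  have i0 : Integrable (fun ω => |w x' 1 ω - w x 1 ω|) P :=
    ((HI_w_id h x' 1).1.sub (HI_w_id h x 1).1).abs
  have mφ : Measurable fun ϖ : Path d => |ϖ x' 1 - ϖ x 1| := by fun_prop
  refine ⟨∫ ω, |w x' 1 ω - w x 1 ω| ∂P, ?_,
    fun s => ⟨h.integrable_shift s mφ i0, h.integral_shift s mφ⟩⟩
  refine (integral_nonneg fun _ => abs_nonneg _).lt_of_ne fun e => ?_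
  have h3 := (integral_eq_zero_iff_of_nonneg (fun ω => abs_nonneg _) i0).1 e.symm
  have h4 : IndepFun (w x 1) (w x' 1) P :=
    (h.ind.indepFun hx).comp (φ := fun p : ℝ≥0 → ℝ => p 1) (ψ := fun p : ℝ≥0 → ℝ => p 1)
      (measurable_pi_apply 1) (measurable_pi_apply 1)
  have h5 := h4.integral_fun_mul_eq_mul_integral (h.meas x 1).aestronglyMeasurable
    (h.meas x' 1).aestronglyMeasurable
  have h6 := (HI_w h x 1 (g := fun y => y ^ 2) (by fun_prop) ⟨(gauss_id 1).1, (gauss_id 1).2.2⟩).2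
  rw [(HI_w_id h x 1).2, zero_mul] at h5
  have h7 : ∫ ω, w x 1 ω * w x' 1 ω ∂P = ∫ ω, w x 1 ω ^ 2 ∂P := by
    refine integral_congr_ae ?_
    filter_upwards [h3] with ω hω
    rw [sub_eq_zero.1 (abs_eq_zero.1 hω), sq]
  rw [h7, h6] at h5
  simp at h5

end Pool.Agent.Lib.MP_0db9b2_pr.PT
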