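import Pool.Agent.Lib.MP_0db9b2_pr.PT.Thr

/-
Passing to the limit law: the dichotomy between the zero field and a strictly positive field.
-/

set_option autoImplicit false

namespace Pool.Agent.Lib.MP_0db9b2_pr.PT

open MeasureTheory ProbabilityTheory Real Filter
open scoped NNReal ENNReal Topology

variable {d : ℕ} {Ω : Type*} {mΩ : MeasurableSpace Ω}
variable {P : Measure Ω} {F : Filtration ℝ≥0 mΩ} {w W : Site d → ℝ≥0 → Ω → ℝ} {k a ε : ℝ} {b : ℕ}
  {u U : ℝ≥0 → Site d → Ω → ℝ} {ν : Measure (ℝ≥0 × Site d → ℝ)}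

structure LimOf (P : Measure Ω) [IsProbabilityMeasure P] (u : ℝ≥0 → Site d → Ω → ℝ)
    (ν : Measure (ℝ≥0 × Site d → ℝ)) [IsProbabilityMeasure ν] : Prop where
  inv : ∀ (s : ℝ≥0) (y : Site d),
    MeasurePreserving (fun f (p : ℝ≥0 × Site d) => f (p.1 + s, p.2 + y)) ν ν
  erg : ∀ A, MeasurableSet A → (∀ y : Site d,
    (fun f (p : ℝ≥0 × Site d) => f (p.1, p.2 + y)) ⁻¹' A =ᵐ[ν] A) → ν A = 0 ∨ ν A = 1
  conv : ∀ I : Finset (ℝ≥0 × Site d),
    TendstoInDistribution (fun (t : ℝ≥0) ω (p : I) => u (t + p.1.1) p.1.2 ω) atTop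
      (fun f (p : I) => f p) (fun _ => P) ν

variable [IsProbabilityMeasure P] [IsProbabilityMeasure ν]

theorem LimOf.transfer (L : LimOf P u ν) {Q : ℝ → Prop} (h : ∀ᵐ f ∂ν, Q (f (0, 0)))
    (p : ℝ≥0 × Site d) : ∀ᵐ f ∂ν, Q (f p) := by
  have := (L.inv p.1 p.2).quasiMeasurePreserving.ae h
  simpa only [zero_add] using this

theorem int_pair (x x' : Site d) {φ : ℝ × ℝ → ℝ} (hφ : Continuous φ) {K : ℝ} (hK : ∀ z, |φ z| ≤ K) :
    Integrable (fun f : ℝ≥0 × Site d → ℝ => φ (f (0, x), f (0, x'))) ν :=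
  (integrable_const K).mono' (hφ.measurable.comp
    ((measurable_pi_apply _).prodMk (measurable_pi_apply _))).aestronglyMeasurable
    (ae_of_all _ fun _ => hK _)

namespace Sys

theorem lim_pair (S : Sys P F w W k a ε b u U) (L : LimOf P u ν) (x x' : Site d) {φ : ℝ × ℝ → ℝ}
    (hφ : Continuous φ) {K : ℝ} (hK : ∀ z, |φ z| ≤ K) :
    Tendsto (fun t => ∫ ω, φ (U t x ω, U t x' ω) ∂P) atTop
      (𝓝 (∫ f, φ (f (0, x), f (0, x')) ∂ν)) := by
  classical
  let I : Finset (ℝ≥0 × Site d) := {(0, x), (0, x')}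
  let i : I := ⟨(0, x), by simp [I]⟩
  let j : I := ⟨(0, x'), by simp [I]⟩
  have c := L.conv I
  have cψ : Continuous fun v : I → ℝ => φ (v i, v j) := by fun_prop
  have h1 := ProbabilityMeasure.tendsto_iff_forall_integral_tendsto.1 c.tendsto
    (BoundedContinuousFunction.ofNormedAddCommGroup (fun v : I → ℝ => φ (v i, v j)) cψ K
      fun v => hK _)
  simp only [ProbabilityMeasure.coe_mk, BoundedContinuousFunction.coe_ofNormedAddCommGroup] at h1
  rw [integral_map c.aemeasurable_limit cψ.aestronglyMeasurable] at h1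
  refine h1.congr fun t => ?_
  rw [integral_map (c.forall_aemeasurable t) cψ.aestronglyMeasurable]
  refine integral_congr_ae (S.hN.ae.mono fun ω hω => ?_)
  simp only [i, j, hω.1, add_zero]

theorem lim_le (S : Sys P F w W k a ε b u U) (L : LimOf P u ν) (x x' : Site d) {φ : ℝ × ℝ → ℝ}
    (hφ : Continuous φ) {K : ℝ} (hK : ∀ z, |φ z| ≤ K) {g : ℝ≥0 → Ω → ℝ} {α C : ℝ}
    (hg : ∀ T : ℝ≥0, HL P T g (α * T + C)) (le : ∀ t ω, φ (U t x ω, U t x' ω) ≤ g t ω) :
    ∫ f, φ (f (0, x), f (0, x')) ∂ν ≤ α := by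
  refine le_of_forall_pos_le_add fun δ hδ => ?_
  have m : CM mΩ fun t ω => φ (U t x ω, U t x' ω) :=
    ⟨fun ω => hφ.comp ((S.cU x ω).prodMk (S.cU x' ω)),
      fun t => hφ.measurable.comp ((S.hN.mU t x).prodMk (S.hN.mU t x'))⟩
  obtain ⟨C', hC'⟩ := m.cesaro (fun _ _ => hK _) (S.lim_pair L x x' hφ hK) hδ
  refine lin_le (C := C + C') fun T => ?_
  obtain ⟨c, h1, l1⟩ := hC' T
  obtain ⟨c', h2, l2⟩ := hg T
  have := h1.le h2 le
  linarith [(abs_le.1 l1).1]

theorem nonneg (S : Sys P F w W k a ε b u U) (L : LimOf P u ν) : ∀ᵐ f ∂ν, 0 ≤ f (0, 0) := by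
  have c : Continuous fun z : ℝ × ℝ => ph (min z.1 0) := ph_cont.comp (by fun_prop)
  have h1 := S.lim_le L 0 0 c (fun _ => ph_le _) (g := fun _ _ => 0) (α := 0) (C := 0)
    (fun T => (HJ.const 0).hl.mono (by simp)) fun t ω => by
      rw [min_eq_right (S.pos _ _ _).le, ph_eq_zero.2 rfl]
  have h2 := (integral_eq_zero_iff_of_nonneg (fun f => ph_nonneg _)
    (int_pair (ν := ν) 0 0 c fun _ => ph_le _)).1
    (le_antisymm h1 (integral_nonneg fun _ => ph_nonneg _))
  filter_upwards [h2] with f hf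
  exact min_eq_right_iff.1 (ph_eq_zero.1 hf)

theorem zero_iff (S : Sys P F w W k a ε b u U) (L : LimOf P u ν) :
    Tendsto (fun t => ∫ ω, ph (U t 0 ω) ∂P) atTop (𝓝 0) ↔ ∀ᵐ f ∂ν, f (0, 0) = 0 := by
  have c : Continuous fun z : ℝ × ℝ => ph z.1 := ph_cont.comp continuous_fst
  have h1 := S.lim_pair L 0 0 c fun _ => ph_le _
  have h2 := integral_eq_zero_iff_of_nonneg (fun f => ph_nonneg _)
    (int_pair (ν := ν) 0 0 c fun _ => ph_le _)
  constructor
  · intro h
    exact (h2.1 (tendsto_nhds_unique h1 h)).mono fun f hf => ph_eq_zero.1 hf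
  · intro h
    rwa [h2.2 (h.mono fun f hf => ph_eq_zero.2 hf)] at h1

/-- a vanishing time average of a moment forces the zero limit -/
theorem zero_of_avg (S : Sys P F w W k a ε b u U) (L : LimOf P u ν) {p : ℕ}
    (h : ∀ δ : ℝ, 0 < δ → ∃ C : ℝ, ∀ T : ℝ≥0, HL P T (fun t ω => U t 0 ω ^ p) (δ * T + C)) :
    ∀ᵐ f ∂ν, f (0, 0) = 0 := by
  have c : Continuous fun z : ℝ × ℝ => ph z.1 ^ p := (ph_cont.comp continuous_fst).pow p
  have hK : ∀ z : ℝ × ℝ, |ph z.1 ^ p| ≤ 1 := fun z => by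
    rw [abs_pow]; exact pow_le_one₀ (abs_nonneg _) (ph_le _)
  have h1 : ∫ f, ph (f (0, 0)) ^ p ∂ν ≤ 0 := le_of_forall_pos_le_add fun δ hδ => by
    obtain ⟨C, hC⟩ := h δ hδ
    rw [zero_add]
    refine S.lim_le L 0 0 c hK hC fun t ω => pow_le_pow_left₀ (ph_nonneg _) ?_ p
    exact (min_le_left _ _).trans (abs_of_pos (S.pos _ _ _)).le
  have h2 := (integral_eq_zero_iff_of_nonneg (fun f => pow_nonneg (ph_nonneg _) p)
    (int_pair (ν := ν) 0 0 c hK)).1
    (le_antisymm h1 (integral_nonneg fun _ => pow_nonneg (ph_nonneg _) p))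
  filter_upwards [h2] with f hf
  exact ph_eq_zero.1 (eq_zero_of_pow_eq_zero hf)

theorem zero_of_nonpos (S : Sys P F w W k a ε b u U) (L : LimOf P u ν) (ha : a ≤ 0) :
    ∀ᵐ f ∂ν, f (0, 0) = 0 := by
  refine S.zero_of_avg L (p := b + 1) fun δ hδ => ⟨ε⁻¹, fun T => ?_⟩
  obtain ⟨c1, h1⟩ := S.ex_pow 0 1 T
  obtain ⟨c2, h2⟩ := S.ex_pow 0 (b + 1) T
  have h3 := HI_le (HI.const 0) (S.mean 0 h1 h2) fun ω => (S.pos _ _ _).le
  have h4 := mul_nonneg (neg_nonneg.2 ha) (h1.nonneg fun t ω => (pow_pos (S.pos _ _ _) _).le)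
  have h5 : c2 ≤ ε⁻¹ := by
    rw [inv_eq_one_div, le_div_iff₀ S.hε]; linarith
  exact ⟨c2, h2, h5.trans (le_add_of_nonneg_left (by positivity))⟩

theorem spread (S : Sys P F w W k a ε b u U) (L : LimOf P u ν) (hk : 0 < k) (i : Fin d) :
    ∀ᵐ f ∂ν, f (0, 0) = 0 → f (0, 0 + Pi.single i 1) = 0 := by
  have hε := S.hε
  obtain ⟨C, h0, hC⟩ := S.avg
  have p0 : ∀ t x y ω, 0 < U t y ω / U t x ω := fun t x y ω => div_pos (S.pos _ _ _) (S.pos _ _ _)
  obtain ⟨α, β, hg⟩ : ∃ α β : ℝ, ∀ T : ℝ≥0,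
      HL P T (fun t ω => U t (0 + Pi.single i 1) ω / U t 0 ω) (α * T + β) := by
    refine ⟨k⁻¹ * (3 * C + ε + (1 / 2 - a)) + 2, k⁻¹ * 3, fun T => ?_⟩
    obtain ⟨m, c2, hm, h2, lm, l2⟩ := hC T 0
    obtain ⟨c, hc⟩ := S.ex_pow 0 b T
    have l3 := hc.le ((HJ.const 1).add h2) fun t ω => by
      have p := S.pos t 0 ω
      rcases le_total (U t 0 ω) 1 with h | h
      · exact (pow_le_one₀ p.le h).trans (le_add_of_nonneg_right (by positivity))
      · exact (pow_le_pow_right₀ h (Nat.le_succ b)).trans (le_add_of_nonneg_left zero_le_one)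
    obtain ⟨Q, lQ, hQ⟩ := S.edgeQ hk one_pos hm hc
    refine (((hQ 0 i).1.add (HJ.const 2).hl).of_le (S.cm_div _ _) fun t ω => ?_).mono ?_
    · have := inv_pos.2 (p0 t 0 (0 + Pi.single i 1) ω)
      rw [abs_of_pos (p0 _ _ _ _), qq]
      linarith
    · have l4 := mul_le_mul_of_nonneg_left l3 hε.le
      have l5 : k * Q ≤ (3 * C + ε + (1 / 2 - a)) * T + 3 := by
        rw [log_one] at lQ; linarith
      have l6 := mul_le_mul_of_nonneg_left l5 (inv_pos.2 hk).le
      rw [inv_mul_cancel_left₀ hk.ne'] at l6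
      linarith
  let A : Set (ℝ≥0 × Site d → ℝ) := {f | f (0, 0) = 0}
  have mA : MeasurableSet A := measurableSet_eq_fun (measurable_pi_apply _) measurable_const
  have c : Continuous fun z : ℝ × ℝ => ph z.2 := ph_cont.comp continuous_snd
  have i1 := (int_pair (ν := ν) 0 (0 + Pi.single i 1) c fun _ => ph_le _).indicator mA
  have n0 : ∀ f, 0 ≤ A.indicator (fun f => ph (f (0, 0 + Pi.single i 1))) f := fun f =>
    Set.indicator_nonneg (fun _ _ => ph_nonneg _) f
  have key : ∀ K : ℝ≥0, (∫ f, A.indicator (fun f => ph (f (0, 0 + Pi.single i 1))) f ∂ν) * K ≤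
      0 * K + α := fun K => by
    have k0 : 0 < ((K : ℝ) + 1)⁻¹ := by positivity
    have cφ : Continuous fun z : ℝ × ℝ => ph z.2 / (|z.1| + ((K : ℝ) + 1)⁻¹) :=
      c.div (by fun_prop) fun z => by positivity
    have φ0 : ∀ z : ℝ × ℝ, 0 ≤ ph z.2 / (|z.1| + ((K : ℝ) + 1)⁻¹) := fun z =>
      div_nonneg (ph_nonneg _) (by positivity)
    have hK : ∀ z : ℝ × ℝ, |ph z.2 / (|z.1| + ((K : ℝ) + 1)⁻¹)| ≤ K + 1 := fun z => by
      rw [abs_of_nonneg (φ0 z), div_le_iff₀ (by positivity), mul_add,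
        mul_inv_cancel₀ (by positivity)]
      exact (min_le_right _ _).trans (le_add_of_nonneg_left (by positivity))
    have h1 := S.lim_le L 0 (0 + Pi.single i 1) cφ hK hg fun t ω =>
      div_le_div₀ (S.pos _ _ _).le ((min_le_left _ _).trans (abs_of_pos (S.pos _ _ _)).le)
        (S.pos _ _ _) ((le_abs_self _).trans (le_add_of_nonneg_right k0.le))
    rw [zero_mul, zero_add α, ← integral_mul_const]
    refine le_trans (integral_mono (i1.mul_const _) (int_pair 0 _ cφ hK) fun f => ?_) h1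
    by_cases hf : f ∈ A
    · have e : f (0, 0) = 0 := hf
      simp only [Set.indicator_of_mem hf, e, abs_zero, zero_add, div_inv_eq_mul]
      exact mul_le_mul_of_nonneg_left (by linarith) (ph_nonneg _)
    · simp only [Set.indicator_of_notMem hf, zero_mul]
      exact φ0 (_, _)
  have h2 := (integral_eq_zero_iff_of_nonneg n0 i1).1
    (le_antisymm (lin_le key) (integral_nonneg n0))
  filter_upwards [h2] with f hf e
  rw [Set.indicator_of_mem (show f ∈ A from e)] at hf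
  exact ph_eq_zero.1 hf

theorem dich (S : Sys P F w W k a ε b u U) (L : LimOf P u ν) (hk : 0 < k) :
    (∀ᵐ f ∂ν, f (0, 0) = 0) ∨ ∀ᵐ f ∂ν, 0 < f (0, 0) := by
  let A : Set (ℝ≥0 × Site d → ℝ) := {f | f (0, 0) = 0}
  have mA : MeasurableSet A := measurableSet_eq_fun (measurable_pi_apply _) measurable_const
  let s : Site d → (ℝ≥0 × Site d → ℝ) → ℝ≥0 × Site d → ℝ := fun y f p => f (p.1, p.2 + y)
  have ms : ∀ y, MeasurePreserving (s y) ν ν := fun y => by
    simpa only [add_zero] using L.inv 0 y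
  have sa : ∀ y z, s (y + z) ⁻¹' A = s z ⁻¹' (s y ⁻¹' A) := fun y z => by
    ext f; simp only [A, s, Set.mem_preimage, Set.mem_ofPred_eq, add_assoc]
  let H : AddSubgroup (Site d) :=
    { carrier := {y | s y ⁻¹' A =ᵐ[ν] A}
      zero_mem' := by
        have : s 0 ⁻¹' A = A := by ext f; simp [A, s]
        exact (this.symm ▸ ae_eq_refl A : s 0 ⁻¹' A =ᵐ[ν] A)
      add_mem' := fun {y z} hy hz => by
        rw [Set.mem_ofPred_eq, sa]
        exact ((ms z).quasiMeasurePreserving.preimage_ae_eq hy).trans hz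
      neg_mem' := fun {y} hy => by
        have h1 := (ms (-y)).quasiMeasurePreserving.preimage_ae_eq hy
        have h2 : s (y + -y) ⁻¹' A = A := by ext f; simp [A, s]
        rw [← sa, h2] at h1
        exact h1.symm }
  have hi : ∀ i : Fin d, (Pi.single i 1 : Site d) ∈ H := fun i =>
    (ae_eq_of_ae_subset_of_measure_ge (S.spread L hk i)
      ((ms _).measure_preimage mA.nullMeasurableSet).le mA.nullMeasurableSet
      (measure_ne_top _ _)).symm
  have hy : ∀ y : Site d, y ∈ H := fun y => by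
    rw [← Finset.univ_sum_single y]
    refine H.sum_mem fun i _ => ?_
    have : (Pi.single i (y i) : Site d) = y i • Pi.single i 1 := by
      rw [← Pi.single_smul, smul_eq_mul, mul_one]
    rw [this]
    exact H.zsmul_mem (hi i) _
  rcases L.erg A mA hy with h | h
  · right
    filter_upwards [S.nonneg L, measure_eq_zero_iff_ae_notMem.1 h] with f h1 h2
    exact h1.lt_of_ne fun e => h2 e.symm
  · left
    exact (mem_ae_iff_prob_eq_one mA).2 h

end Sys

end Pool.Agent.Lib.MP_0db9b2_pr.PT
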