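import Pool.Agent.Lib.MP_0db9b2_pr.PT.Law

/-
The identity for the mean and the time-averaged moment bound.
-/

set_option autoImplicit false

namespace Pool.Agent.Lib.MP_0db9b2_pr.PT

open MeasureTheory ProbabilityTheory Real Filter
open scoped NNReal ENNReal Topology

variable {d : ℕ} {Ω : Type*} {mΩ : MeasurableSpace Ω}
variable {P : Measure Ω} {F : Filtration ℝ≥0 mΩ} {w W : Site d → ℝ≥0 → Ω → ℝ} {k a ε : ℝ} {b : ℕ}
  {u U : ℝ≥0 → Site d → Ω → ℝ}

theorem HI_ae {f g : Ω → ℝ} {c : ℝ} (h : HI P f c) (e : ∀ᵐ ω ∂P, f ω = g ω) : HI P g c :=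
  ⟨h.1.congr e, (integral_congr_ae e).symm.trans h.2⟩

theorem HI_le {f g : Ω → ℝ} {c c' : ℝ} (h : HI P f c) (h' : HI P g c') (e : ∀ ω, f ω ≤ g ω) :
    c ≤ c' := by
  rw [← h.2, ← h'.2]
  exact integral_mono h.1 h'.1 e

/-- all the data of the model -/
structure Sys (P : Measure Ω) (F : Filtration ℝ≥0 mΩ) (w W : Site d → ℝ≥0 → Ω → ℝ) (k a ε : ℝ)
    (b : ℕ) (u U : ℝ≥0 → Site d → Ω → ℝ) : Prop where
  h : Noise P F w
  hu : Sol P F w k a ε b u
  hN : Nice P w k a ε b u U W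
  hk : 0 ≤ k
  hε : 0 < ε
  hb : b ≠ 0

namespace Sys

theorem pos (S : Sys P F w W k a ε b u U) (t : ℝ≥0) (x : Site d) (ω : Ω) : 0 < U t x ω :=
  (S.hN.good ω).pos t x

theorem cU (S : Sys P F w W k a ε b u U) (x : Site d) (ω : Ω) : Continuous fun t => U t x ω :=
  (S.hN.good ω).cU x

theorem cm_pow (S : Sys P F w W k a ε b u U) (x : Site d) (p : ℕ) :
    CM mΩ fun t ω => U t x ω ^ p :=
  ⟨fun ω => (S.cU x ω).pow p, fun t => (S.hN.mU t x).pow_const p⟩

theorem ex_pow (S : Sys P F w W k a ε b u U) (x : Site d) (p : ℕ) (T : ℝ≥0) :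
    ∃ c, HJ P T (fun t ω => U t x ω ^ p) c := by
  have := S.h.prob
  obtain ⟨C, hC⟩ := S.hu.mom p T
  refine (S.cm_pow x p).of_bound (C := C) fun t ht => ?_
  have h1 : HI P (fun ω => U t x ω ^ p) _ := HI_ae ⟨(hC t ht x).1, rfl⟩ (by
    filter_upwards [S.hN.ae] with ω hω
    rw [← hω.1, abs_of_pos (S.pos _ _ _)])
  refine ⟨h1.1, le_trans (le_of_eq ?_) (h1.2.le.trans (hC t ht x).2)⟩
  exact integral_congr_ae (ae_of_all _ fun ω => abs_of_pos (pow_pos (S.pos _ _ _) p))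

theorem ident (S : Sys P F w W k a ε b u U) (t : ℝ≥0) (x x' y : Site d) {φ : ℝ → ℝ → ℝ}
    (hφ : Measurable fun z : ℝ × ℝ => φ z.1 z.2) :
    IdentDistrib (fun ω => φ (U t x ω) (U t x' ω)) (fun ω => φ (U t (x + y) ω) (U t (x' + y) ω))
      P P := by
  have e : ∀ x x', IdentDistrib (fun ω => φ (U t x ω) (U t x' ω))
      (fun ω => φ (u t x ω) (u t x' ω)) P P := fun x x' =>
    IdentDistrib.of_ae_eq (hφ.comp (f := fun ω => (U t x ω, U t x' ω))
      ((S.hN.mU t x).prodMk (S.hN.mU t x'))).aemeasurable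
      (S.hN.ae.mono fun ω hω => by simp only [hω.1])
  exact ((e x x').trans (ident_pair S.h S.hu S.hk S.hε S.hb t x x' y hφ)).trans (e _ _).symm

theorem pow_shift (S : Sys P F w W k a ε b u U) {x : Site d} (y : Site d) {p : ℕ} {T : ℝ≥0} {c : ℝ}
    (h : HJ P T (fun t ω => U t x ω ^ p) c) : HJ P T (fun t ω => U t y ω ^ p) c := by
  have := S.h.prob
  refine h.ident (S.cm_pow x p) (S.cm_pow y p) fun t => ?_
  have := S.ident t x x (y - x) (φ := fun r _ => r ^ p) (by fun_prop)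
  rwa [add_sub_cancel] at this

theorem mean (S : Sys P F w W k a ε b u U) (x : Site d) {T : ℝ≥0} {c1 c2 : ℝ}
    (h1 : HJ P T (fun t ω => U t x ω ^ 1) c1) (h2 : HJ P T (fun t ω => U t x ω ^ (b + 1)) c2) :
    HI P (U T x) (1 + a * c1 - ε * c2) := by
  have := S.h.prob
  let G : ℝ≥0 → Ω → ℝ := fun s ω =>
    k * lap (fun y => U s y ω) x + a * U s x ω - ε * U s x ω ^ (b + 1)
  let G0 : ℝ≥0 → Ω → ℝ := fun s ω => Lf k a u x s ω - ε * u s x ω ^ (b + 1)
  have eG : ∀ᵐ ω ∂P, ∀ s, G0 s ω = G s ω := S.hN.ae.mono fun ω hω s => by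
    simp only [G, G0, Lf, hω.1]
  have cG : ∀ ω, Continuous fun s => G s ω := fun ω => by
    have := fun y => S.cU y ω
    simp only [G, lap]
    fun_prop
  have mG : ∀ s, Measurable (G s) := fun s => by
    have := S.hN.mU s
    simp only [G, lap]
    fun_prop
  have hG : HJ P T G (a * c1 - ε * c2) := by
    refine ((((HJ.sum Finset.univ fun (i : Fin d) _ =>
      ((S.pow_shift (x + Pi.single i 1) h1).sub h1).add
      ((S.pow_shift (x - Pi.single i 1) h1).sub h1)).const_mul k).add (h1.const_mul a)).sub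
      (h2.const_mul ε)).congr (fun t ω => ?_) (by simp)
    simp only [G, lap, pow_one]
  have aG : ∀ s, Measurable[F s] (G0 s) := fun s =>
    (S.hu.Lf_ad x s).sub (((S.hu.ad x s).pow_const _).const_mul _)
  obtain ⟨C, hC⟩ := ((S.hu.mom_L T).sub (((S.hu.mom_u T).pow (b + 1)).const_mul ε)).2 1
  simp only [pow_one] at hC
  let g : ℝ≥0 → Ω → ℝ := fun s ω => exp (W x T ω - W x s ω - ((T : ℝ) - s) / 2) * G s ω
  have cg : CM mΩ g := by
    refine ⟨fun ω => ?_, fun s => ?_⟩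
    · have := (S.hN.good ω).cW x
      have := cG ω
      simp only [g]
      fun_prop
    · have := S.hN.mW x
      have := mG s
      simp only [g]
      fun_prop
  have key : ∀ s ≤ T, ∀ Z : Ω → ℝ, Measurable[F s] Z → Integrable Z P →
      HI P (fun ω => exp (w x T ω - w x s ω - ((T : ℝ) - s) / 2) * Z ω) (∫ ω, Z ω ∂P) := by
    intro s hs Z hZ iZ
    have := S.h.HI_incr_mul x s (T - s) (g := fun y => exp (y - ((T - s : ℝ≥0) : ℝ) / 2))
      (by fun_prop) (gauss_mart _).1 hZ iZ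
    rwa [(gauss_mart _).2, one_mul, add_tsub_cancel_of_le hs, NNReal.coe_sub hs] at this
  have iG : ∀ s ≤ T, Integrable (G0 s) P := fun s hs =>
    (integrable_norm_iff ((aG s).mono (F.le s) le_rfl).aestronglyMeasurable).1 (hC (⟨s, hs⟩, x)).1
  have k1 : ∀ s ≤ T, HI P (g s) (∫ ω, G s ω ∂P) := fun s hs => by
    rw [← integral_congr_ae (eG.mono fun ω hω => hω s)]
    refine HI_ae (key s hs _ (aG s) (iG s hs)) ?_
    filter_upwards [eG, S.hN.ae] with ω e1 e2
    simp only [g, e1, e2.2]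
  obtain ⟨c, hc⟩ := cg.of_bound (P := P) (T := T) (C := C) fun s hs => ⟨(k1 s hs).1, by
    have k2 := key s hs (fun ω => |G0 s ω|) (continuous_abs.measurable.comp (aG s)) (iG s hs).abs
    refine le_trans (le_of_eq ?_) (k2.2.le.trans (hC (⟨s, hs⟩, x)).2)
    refine integral_congr_ae ?_
    filter_upwards [eG, S.hN.ae] with ω e1 e2
    simp only [g, e1, e2.2, abs_mul, abs_exp]⟩
  have e1 : c = a * c1 - ε * c2 := by
    rw [hc.time, hG.time]
    exact In_congr fun s hs => (k1 s hs).2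
  have k3 : HI P (fun ω => exp (W x T ω - T / 2)) 1 :=
    HI_ae (HI_w S.h x T (g := fun y => exp (y - T / 2)) (by fun_prop) (gauss_mart T))
      (S.hN.ae.mono fun ω hω => by rw [hω.2])
  refine (k3.add hc.path).congr (fun ω => ?_) (by rw [e1]; ring)
  have p := (S.hN.good ω).prod T x
  have z : exp (W x T ω - T / 2) * Zf (fun t => W x t ω) T = 1 := by
    rw [Zf, ← exp_add]; simp
  have e2 : In (fun t => g t ω) T =
      exp (W x T ω - T / 2) * In (fun r => Zf (fun t => W x t ω) r * G r ω) T := by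
    rw [← In_mul]
    refine In_congr fun s _ => ?_
    simp only [g, Zf]
    rw [← mul_assoc, ← exp_add]
    congr 2; ring
  rw [e2, ← one_mul (U T x ω), ← z, mul_assoc, p]
  ring

theorem young {ε : ℝ} (hε : 0 < ε) {b : ℕ} (hb : b ≠ 0) (a : ℝ) :
    ∃ C : ℝ, 0 ≤ C ∧ ∀ y : ℝ, 0 ≤ y → a * y ^ 1 ≤ ε / 2 * y ^ (b + 1) + C := by
  refine ⟨|a| * (2 * |a| / ε + 1), by positivity, fun y hy => ?_⟩
  have h0 : 0 ≤ 2 * |a| / ε := by positivity
  have h1 : a * y ≤ |a| * y := mul_le_mul_of_nonneg_right (le_abs_self a) hy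
  rw [pow_one]
  rcases le_total y (2 * |a| / ε + 1) with h | h
  · have := mul_le_mul_of_nonneg_left h (abs_nonneg a)
    have : 0 ≤ ε / 2 * y ^ (b + 1) := by positivity
    linarith
  · have h2 : y ≤ y ^ b := le_self_pow₀ (by linarith) hb
    have h3 : ε / 2 * (2 * |a| / ε) = |a| := by field_simp
    have h4 : |a| ≤ ε / 2 * y ^ b := by
      rw [← h3]
      exact mul_le_mul_of_nonneg_left (by linarith) (by positivity)
    have h5 := mul_le_mul_of_nonneg_right h4 hy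
    have : 0 ≤ |a| * (2 * |a| / ε + 1) := by positivity
    rw [pow_succ]
    linarith

/-- the mean grows at most linearly and so does the time integral of the moment b + 1 -/
theorem avg (S : Sys P F w W k a ε b u U) : ∃ C : ℝ, 0 ≤ C ∧ ∀ (T : ℝ≥0) (x : Site d),
    ∃ m c2, HI P (U T x) m ∧ HJ P T (fun t ω => U t x ω ^ (b + 1)) c2 ∧
      m ≤ 1 + C * T ∧ ε / 2 * c2 ≤ 1 + C * T := by
  have := S.h.prob
  obtain ⟨C, h0, hC⟩ := young S.hε S.hb a
  refine ⟨C, h0, fun T x => ?_⟩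
  obtain ⟨c1, h1⟩ := S.ex_pow x 1 T
  obtain ⟨c2, h2⟩ := S.ex_pow x (b + 1) T
  have h3 := S.mean x h1 h2
  have h4 := (h1.const_mul a).le ((h2.const_mul (ε / 2)).add (HJ.const C))
    fun t ω => hC _ (S.pos _ _ _).le
  have h5 := h2.nonneg fun t ω => (pow_pos (S.pos _ _ _) _).le
  have h6 := HI_le (HI.const 0) h3 fun ω => (S.pos _ _ _).le
  have h7 := mul_nonneg S.hε.le h5
  exact ⟨_, _, h3, h2, by linarith, by linarith⟩

end Sys

end Pool.Agent.Lib.MP_0db9b2_pr.PT
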