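import Pool.Agent.Lib.MP_0db9b2_pr.PT.Fub

/-
Pathwise positivity and the identity for the logarithm of the solution.
-/

set_option autoImplicit false

namespace Pool.Agent.Lib.MP_0db9b2_pr.PT

open MeasureTheory ProbabilityTheory Real Filter
open scoped NNReal ENNReal Topology

variable {d : ℕ} {Ω : Type*} {mΩ : MeasurableSpace Ω}

/-- sum over the neighbours y of x of f y / f x - 1 -/
noncomputable def Rr (f : Site d → ℝ) (x : Site d) : ℝ :=
  ∑ i : Fin d, ((f (x + Pi.single i 1) / f x - 1) + (f (x - Pi.single i 1) / f x - 1))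

structure GoodW (k a ε : ℝ) (b : ℕ) (U : ℝ≥0 → Site d → ℝ) (W : Site d → ℝ≥0 → ℝ) : Prop where
  cU : ∀ x, Continuous fun t => U t x
  cW : ∀ x, Continuous (W x)
  pos : ∀ t x, 0 < U t x
  prod : ∀ t x, Zf (W x) t * U t x =
    1 + In (fun r => Zf (W x) r * (k * lap (U r) x + a * U r x - ε * U r x ^ (b + 1))) t
  logid : ∀ t x, log (U t x) = W x t - t / 2 + In (fun r => k * Rr (U r) x + a - ε * U r x ^ b) t

theorem log_In {V g : ℝ≥0 → ℝ} (hg : Continuous g) (hV : ∀ t, V t = 1 + In g t)
    (h0 : ∀ t, 0 < V t) (t : ℝ≥0) : log (V t) = In (fun r => g r / V r) t := by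
  have hVc : Continuous V := by
    rw [funext hV]; exact continuous_const.add (continuous_In hg)
  have hc : Continuous fun r => g r / V r := hg.div hVc fun r => (h0 r).ne'
  have h1 := intervalIntegral.integral_eq_sub_of_hasDerivAt (a := 0) (b := t)
    (f := fun u => log (1 + ∫ x in (0 : ℝ)..u, g x.toNNReal))
    (f' := fun r => g r.toNNReal / V r.toNNReal)
    (fun r hr => by
      rw [Set.uIcc_of_le t.coe_nonneg] at hr
      have e : 1 + ∫ x in (0 : ℝ)..r, g x.toNNReal = V r.toNNReal := by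
        rw [hV]; simp only [In, Real.coe_toNNReal r hr.1]
      have := ((In_hasDerivAt hg r).const_add 1).log (by rw [e]; exact (h0 _).ne')
      rw [e] at this
      exact this) (intInt hc _ _)
  simp only [intervalIntegral.integral_same, add_zero, log_one, sub_zero] at h1
  rw [hV]
  exact h1.symm

theorem goodW_of {k a ε : ℝ} {b : ℕ} {U : ℝ≥0 → Site d → ℝ} {W : Site d → ℝ≥0 → ℝ} (hk : 0 ≤ k)
    (cU : ∀ x, Continuous fun t => U t x) (cW : ∀ x, Continuous (W x)) (h0 : ∀ t x, 0 ≤ U t x)
    (hp : ∀ t x, Zf (W x) t * U t x =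
      1 + In (fun r => Zf (W x) r * (k * lap (U r) x + a * U r x - ε * U r x ^ (b + 1))) t) :
    GoodW k a ε b U W := by
  have cg : ∀ x, Continuous fun r =>
      Zf (W x) r * (k * lap (U r) x + a * U r x - ε * U r x ^ (b + 1)) := fun x => by
    have := continuous_Zf (cW x)
    unfold lap
    fun_prop
  have pos : ∀ t x, 0 < U t x := fun t x => by
    have h1 := exp_prod (lam := fun r => 2 * d * k - a + ε * U r x ^ b) (cg x) (by fun_prop)
      (fun t => hp t x) t
    have h2 : 0 ≤ In (fun r => exp (In (fun r => 2 * d * k - a + ε * U r x ^ b) r) *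
        ((2 * d * k - a + ε * U r x ^ b) * (Zf (W x) r * U r x) +
          Zf (W x) r * (k * lap (U r) x + a * U r x - ε * U r x ^ (b + 1)))) t := by
      refine In_nonneg (fun r => mul_nonneg (exp_pos _).le ?_) t
      have h3 : 0 ≤ ∑ i : Fin d, (U r (x + Pi.single i 1) + U r (x - Pi.single i 1)) :=
        Finset.sum_nonneg fun _ _ => add_nonneg (h0 _ _) (h0 _ _)
      have h4 := mul_nonneg (Zf_pos (W x) r).le (mul_nonneg hk h3)
      rw [lap_eq]
      refine h4.trans_eq ?_
      ring
    refine (h0 t x).lt_of_ne fun h => ?_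
    rw [← h] at h1
    linarith
  refine ⟨cU, cW, pos, hp, fun t x => ?_⟩
  have h1 := log_In (cg x) (fun t => hp t x) (fun t => mul_pos (Zf_pos _ _) (pos t x)) t
  rw [log_mul (Zf_pos _ _).ne' (pos t x).ne', Zf, log_exp] at h1
  have h2 : In (fun r => k * Rr (U r) x + a - ε * U r x ^ b) t = In (fun r => Zf (W x) r *
      (k * lap (U r) x + a * U r x - ε * U r x ^ (b + 1)) / (Zf (W x) r * U r x)) t := by
    refine In_congr fun r _ => ?_
    have p1 := (pos r x).ne'
    have e : lap (U r) x = Rr (U r) x * U r x := by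
      unfold lap Rr
      rw [Finset.sum_mul]
      exact Finset.sum_congr rfl fun i _ => by field_simp
    rw [mul_div_mul_left _ _ (Zf_pos _ _).ne', e]
    field_simp
    ring
  rw [h2, ← h1]
  ring

variable {P : Measure Ω} {F : Filtration ℝ≥0 mΩ} {w : Site d → ℝ≥0 → Ω → ℝ} {k a ε : ℝ} {b : ℕ}
  {u : ℝ≥0 → Site d → Ω → ℝ}

theorem good_ae (h : Noise P F w) (hu : Sol P F w k a ε b u) (hk : 0 ≤ k) :
    ∀ᵐ ω ∂P, GoodW k a ε b (fun t x => u t x ω) (fun x t => w x t ω) := by
  filter_upwards [ae_all_iff.2 hu.cont, h.cont_ae, hu.lin_nonneg_ae,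
    ae_all_iff.2 (hu.prod_ae h), ae_all_iff.2 hu.Lf_cont] with ω c1 c2 c3 c4 c5
  refine goodW_of hk c1 c2 (fun t x => ?_) fun t x => ?_
  · exact ge_of_tendsto' (((c1 x).tendsto t).comp (tendsto_tm_fl t)) fun n => c3 _ _ _
  · have z := continuous_Zf (c2 x)
    have g : Continuous fun r => Zf (fun s => w x s ω) r *
        (Lf k a u x r ω - ε * u r x ω ^ (b + 1)) :=
      z.mul ((c5 x).sub (((c1 x).pow _).const_mul _))
    refine tendsto_nhds_unique_of_eventuallyEq
      (((z.mul (c1 x)).tendsto t).comp (tendsto_tm_fl t))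
      ((((continuous_In g).const_add 1).tendsto t).comp (tendsto_tm_fl t)) ?_
    filter_upwards [eventually_gt_atTop 0] with n hn
    exact c4 x n _ hn

/-- versions of the solution and of the noise all of whose paths are good -/
structure Nice (P : Measure Ω) (w : Site d → ℝ≥0 → Ω → ℝ) (k a ε : ℝ) (b : ℕ)
    (u U : ℝ≥0 → Site d → Ω → ℝ) (W : Site d → ℝ≥0 → Ω → ℝ) : Prop where
  good : ∀ ω, GoodW k a ε b (fun t x => U t x ω) (fun x t => W x t ω)
  mU : ∀ t x, Measurable (U t x)
  mW : ∀ x t, Measurable (W x t)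
  ae : ∀ᵐ ω ∂P, (∀ t x, U t x ω = u t x ω) ∧ ∀ x t, W x t ω = w x t ω

theorem exists_nice (h : Noise P F w) (hu : Sol P F w k a ε b u) (hk : 0 ≤ k) :
    ∃ U W, Nice P w k a ε b u U W := by
  classical
  have := h.prob
  have hg := good_ae h hu hk
  obtain ⟨ω0, h0⟩ := hg.exists
  set N := toMeasurable P {ω | ¬ GoodW k a ε b (fun t x => u t x ω) (fun x t => w x t ω)} with hN
  have hN0 : ∀ᵐ ω ∂P, ω ∉ N := by
    rw [ae_iff] at hg ⊢
    simpa [hN, measure_toMeasurable] using hg
  let pr : Ω → Ω := fun ω => if ω ∈ N then ω0 else ω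
  have mpr : Measurable pr :=
    Measurable.ite (measurableSet_toMeasurable _ _) measurable_const measurable_id
  refine ⟨fun t x ω => u t x (pr ω), fun x t ω => w x t (pr ω), fun ω => ?_,
    fun t x => (hu.meas t x).comp mpr, fun x t => (h.meas x t).comp mpr, ?_⟩
  · by_cases hω : ω ∈ N
    · simp only [pr, if_pos hω]; exact h0
    · simp only [pr, if_neg hω]
      by_contra h
      exact hω (subset_toMeasurable _ _ h)
  · filter_upwards [hN0] with ω hω
    simp only [pr, if_neg hω, implies_true, and_self]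

end Pool.Agent.Lib.MP_0db9b2_pr.PT
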