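import Pool.Agent.Lib.MP_0db9b2_pr.PT.Zero

/-
Fractional moments of the scheme: contraction over one block of steps for small diffusivity.
-/

set_option autoImplicit false

namespace Pool.Agent.Lib.MP_0db9b2_pr.PT

open MeasureTheory ProbabilityTheory Real Filter
open scoped NNReal ENNReal Topology

variable {d : ℕ} {Ω : Type*} {mΩ : MeasurableSpace Ω}
variable {P : Measure Ω} {F : Filtration ℝ≥0 mΩ} {w : Site d → ℝ≥0 → Ω → ℝ} {q : Par}

theorem rpow_le_one_add {y θ : ℝ} (hy : 0 ≤ y) (h0 : 0 ≤ θ) (h1 : θ ≤ 1) : y ^ θ ≤ 1 + y := by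
  rcases le_total y 1 with h | h
  · exact (rpow_le_one hy h h0).trans (le_add_of_nonneg_right hy)
  · exact (rpow_le_self_of_one_le h h1).trans (le_add_of_nonneg_left zero_le_one)

theorem rpow_sum_le {ι : Type*} (s : Finset ι) {f : ι → ℝ} (hf : ∀ i, 0 ≤ f i) {θ : ℝ} (h0 : 0 < θ)
    (h1 : θ ≤ 1) : (∑ i ∈ s, f i) ^ θ ≤ ∑ i ∈ s, f i ^ θ := by
  classical
  induction s using Finset.induction_on with
  | empty => simp [h0.ne']
  | insert a s ha ih =>
    rw [Finset.sum_insert ha, Finset.sum_insert ha]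
    exact (rpow_add_le_add_rpow (hf a) (Finset.sum_nonneg fun i _ => hf i) h0.le h1).trans
      (add_le_add le_rfl ih)

theorem int_rpow [IsProbabilityMeasure P] {Y : Ω → ℝ} (m : Measurable Y) (y0 : ∀ ω, 0 ≤ Y ω)
    (i : Integrable Y P) {θ : ℝ} (h0 : 0 ≤ θ) (h1 : θ ≤ 1) : Integrable (fun ω => Y ω ^ θ) P :=
  ((integrable_const 1).add i).mono' (m.pow_const θ).aestronglyMeasurable (ae_of_all _ fun ω => by
    rw [Real.norm_of_nonneg (rpow_nonneg (y0 ω) θ)]; exact rpow_le_one_add (y0 ω) h0 h1)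

theorem jensen_rpow [IsProbabilityMeasure P] {Y : Ω → ℝ} (m : Measurable Y) (y0 : ∀ ω, 0 ≤ Y ω)
    (i : Integrable Y P) {θ c : ℝ} (h0 : 0 ≤ θ) (h1 : θ ≤ 1) (hc : ∫ ω, Y ω ∂P ≤ c) :
    ∫ ω, Y ω ^ θ ∂P ≤ c ^ θ :=
  ((Real.concaveOn_rpow h0 h1).le_map_integral (continuous_rpow_const h0).continuousOn isClosed_Ici
    (ae_of_all _ y0) i (int_rpow m y0 i h0 h1)).trans (rpow_le_rpow (integral_nonneg y0) hc h0)

/-- the sigma-field of the increments after step j -/
noncomputable abbrev Fut (w : Site d → ℝ≥0 → Ω → ℝ) (n j : ℕ) : MeasurableSpace Ω :=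
  MeasurableSpace.comap (fun ω => shiftP (tm n j) (pathOf w ω)) inferInstance

theorem fut_le (h : Noise P F w) (n j : ℕ) : Fut w n j ≤ mΩ :=
  ((measurable_shiftP _).comp h.meas_path).comap_le

theorem fut_succ (n j : ℕ) : Fut w n (j + 1) ≤ Fut w n j := by
  have e : (fun ω => shiftP (tm n (j + 1)) (pathOf w ω)) =
      shiftP (tm n 1) ∘ fun ω => shiftP (tm n j) (pathOf w ω) := by
    funext ω x t
    simp only [shiftP, Function.comp, tm_succ n j, add_assoc]
    ring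
  unfold Fut
  rw [e, ← MeasurableSpace.comap_comp]
  exact MeasurableSpace.comap_mono (measurable_shiftP _).comap_le

theorem noise_fut (n j : ℕ) (y : Site d) :
    Measurable[Fut w n j] fun ω => noise n (pathOf w ω) j y := by
  have e : (fun ω => noise n (pathOf w ω) j y) =
      (fun ϖ => noise n ϖ 0 y) ∘ fun ω => shiftP (tm n j) (pathOf w ω) := by
    funext ω
    simp only [Function.comp, noise_shift, add_zero]
  rw [e]
  exact (measurable_noise n 0 y).comp (comap_measurable _)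

theorem HI_fut (h : Noise P F w) {n j : ℕ} {G Z : Ω → ℝ} (mG : Measurable[Fut w n j] G)
    (mZ : Measurable[F (tm n j)] Z) (iG : Integrable G P) (iZ : Integrable Z P) :
    HI P (fun ω => G ω * Z ω) ((∫ ω, G ω ∂P) * ∫ ω, Z ω ∂P) := by
  have i : IndepFun G Z P := (IndepFun_iff_Indep G Z P).2
    (indep_of_indep_of_le_right (indep_of_indep_of_le_left (h.fut (tm n j)) mG.comap_le) mZ.comap_le)
  exact ⟨i.integrable_mul iG iZ,
    i.integral_fun_mul_eq_mul_integral iG.aestronglyMeasurable iZ.aestronglyMeasurable⟩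

theorem HI_noise_rpow (h : Noise P F w) (n j : ℕ) (y : Site d) (θ : ℝ) :
    HI P (fun ω => noise n (pathOf w ω) j y ^ θ) (exp ((θ ^ 2 - θ) / 2 * tm n 1)) := by
  have a1 := h.HI_incr y (tm n j) (tm n 1) (g := fun z => exp (θ * z)) (by fun_prop) (HI_exp _ _).1
  rw [(HI_exp _ _).2] at a1
  refine (a1.const_mul (exp (-(θ * tm n 1 / 2)))).congr (fun ω => ?_) ?_
  · rw [noise, ← exp_mul, ← exp_add]
    congr 1
    simp only [pathOf]
    ring
  · rw [← exp_add]; congr 1; ring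

/-- the scheme started from 1 -/
noncomputable def uj (q : Par) (w : Site d → ℝ≥0 → Ω → ℝ) (n j : ℕ) (y : Site d) (ω : Ω) : ℝ :=
  flow q (noise n (pathOf w ω)) (fun _ => 1) j y

/-- sum over the neighbours -/
noncomputable def Sj (q : Par) (w : Site d → ℝ≥0 → Ω → ℝ) (n j : ℕ) (y : Site d) (ω : Ω) : ℝ :=
  ∑ i : Fin d, (uj q w n j (y + Pi.single i 1) ω + uj q w n j (y - Pi.single i 1) ω)

theorem uj_nonneg (hq : q.Good) (n j : ℕ) (y : Site d) (ω : Ω) : 0 ≤ uj q w n j y ω :=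
  flow_nonneg hq (noise_pos n _) (fun _ => zero_le_one) j y

theorem uj_succ (hq : q.Good) (n j : ℕ) (y : Site d) (ω : Ω) : uj q w n (j + 1) y ω ≤
    noise n (pathOf w ω) j y * (q.al * uj q w n j y ω + q.ka * Sj q w n j y ω) :=
  mul_le_mul_of_nonneg_left (rho_le_self hq.c_pos.le
    (lin_nonneg hq (fun z => uj_nonneg hq n j z ω) y)) (noise_pos _ _ _ _).le

theorem uj_mean (h : Noise P F w) (hq : q.Good) (n L : ℕ) :
    ∃ D : ℝ, 0 ≤ D ∧ ∀ j ≤ L, ∀ y, ∫ ω, uj q w n j y ω ∂P ≤ D := by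
  have := h.prob
  induction L with
  | zero => exact ⟨1, zero_le_one, fun j hj y => by simp [Nat.le_zero.1 hj, uj, flow]⟩
  | succ L ih =>
    obtain ⟨D, d0, hD⟩ := ih
    refine ⟨max D (lin q (fun _ : Site d => D) 0), le_max_of_le_left d0, fun j hj y => ?_⟩
    rcases hj.eq_or_lt with rfl | hj
    · refine le_max_of_le_right ?_
      have i := fun z => h.flow_int hq n L zero_le_one z
      have a1 := HI_lin (q := q) (Z := fun ω z => uj q w n L z ω) i y
      have a2 := h.HI_noise_mul n L y (Z := fun ω => lin q (fun z => uj q w n L z ω) y)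
        (@measurable_lin d q Ω (F (tm n L)) _ (fun z => h.flow_adapted n L 1 z) y) a1.1
      refine (HI_le ⟨h.flow_int hq n _ zero_le_one y, rfl⟩ a2 fun ω => uj_succ hq n L y ω).trans ?_
      rw [a1.2, lin_const, ← lin_const (q := q) D y]
      exact lin_mono hq (fun z => hD L le_rfl z) y
    · exact le_max_of_le_left (hD j (by omega) y)

/-- weights depending on the future increments, of total mean at most c -/
structure Wt (P : Measure Ω) (w : Site d → ℝ≥0 → Ω → ℝ) (n s N : ℕ) (g : ℕ → Ω → ℝ) (c : ℝ) :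
    Prop where
  meas : ∀ j, Measurable[Fut w n (s + j)] (g j)
  nonneg : ∀ j ω, 0 ≤ g j ω
  int : ∀ j, Integrable (g j) P
  le : ∑ j ∈ Finset.range (N + 1), ∫ ω, g j ω ∂P ≤ c

theorem decomp (h : Noise P F w) (hq : q.Good) (n : ℕ) (y : Site d) (θ : ℝ) (N : ℕ) :
    ∀ (s : ℕ) (g : ℕ → Ω → ℝ) (c : ℝ), Wt P w n s N g c → ∃ (G : Ω → ℝ) (g' : ℕ → Ω → ℝ),
      Measurable[Fut w n s] G ∧ (∀ ω, 0 ≤ G ω) ∧ Integrable G P ∧
      ∫ ω, G ω ∂P ≤ max q.al 1 ^ N * c ∧ Wt P w n s N g' (q.ka * N * max q.al 1 ^ N * c) ∧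
      (∀ ω, ∑ j ∈ Finset.range (N + 1), g j ω * uj q w n (s + j) y ω ≤ G ω * uj q w n s y ω +
        ∑ j ∈ Finset.range (N + 1), g' j ω * Sj q w n (s + j) y ω) ∧
      ((∀ j ω, j ≤ N → g j ω = if j = N then 1 else 0) →
        HI P (fun ω => G ω ^ θ) ((q.al ^ θ * exp ((θ ^ 2 - θ) / 2 * tm n 1)) ^ N)) := by
  have := h.prob
  induction N with
  | zero =>
    intro s g c hg
    refine ⟨g 0, fun _ _ => 0, hg.meas 0, hg.nonneg 0, hg.int 0, by simpa using hg.le,
      ⟨fun _ => measurable_const, fun _ _ => le_rfl, fun _ => integrable_const _, by simp⟩,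
      fun ω => by simp, fun e => (HI.const 1).congr (fun ω => by simp [e 0 ω le_rfl]) (by simp)⟩
  | succ N ih =>
    intro s g c hg
    have e1 : ∀ j, s + 1 + j = s + (j + 1) := fun j => by omega
    have l0 := hg.le
    rw [Finset.sum_range_succ'] at l0
    have g0 : 0 ≤ ∫ ω, g 0 ω ∂P := integral_nonneg (hg.nonneg 0)
    have g1 : 0 ≤ ∑ j ∈ Finset.range (N + 1), ∫ ω, g (j + 1) ω ∂P :=
      Finset.sum_nonneg fun j _ => integral_nonneg (hg.nonneg _)
    obtain ⟨G, g', m1, p1, i1, l1, W1, le1, h1⟩ := ih (s + 1) (fun j => g (j + 1))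
      (∑ j ∈ Finset.range (N + 1), ∫ ω, g (j + 1) ω ∂P)
      ⟨fun j => e1 j ▸ hg.meas (j + 1), fun j => hg.nonneg _, fun j => hg.int _, le_rfl⟩
    set c1 := ∑ j ∈ Finset.range (N + 1), ∫ ω, g (j + 1) ω ∂P
    have ae := h.noise_adapted n (Nat.lt_succ_self s) y
    have he : HI P (fun ω => noise n (pathOf w ω) s y) 1 :=
      (HI_noise_rpow h n s y 1).congr (fun ω => (rpow_one _).symm) (by simp)
    have a1 := HI_fut h m1 ae i1 he.1
    rw [he.2, mul_one] at a1
    have mE : Measurable[Fut w n s] fun ω => G ω * noise n (pathOf w ω) s y :=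
      (m1.mono (fut_succ n s) le_rfl).mul (noise_fut n s y)
    have pE : ∀ ω, 0 ≤ G ω * noise n (pathOf w ω) s y := fun ω =>
      mul_nonneg (p1 ω) (noise_pos _ _ _ _).le
    have b1 : 1 ≤ max q.al 1 := le_max_right _ _
    have b2 : 1 ≤ max q.al 1 ^ N := one_le_pow₀ b1
    have b3 : q.al ≤ max q.al 1 := le_max_left _ _
    have al := hq.al_pos
    have ka := hq.ka_nonneg
    have a2 := HI.add ⟨hg.int 0, rfl⟩ (a1.const_mul q.al)
    have a3 := a1.const_mul q.ka
    set B := max q.al 1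
    have b4 : B ^ N * c1 ≤ B ^ (N + 1) * c := by
      rw [pow_succ]
      exact mul_le_mul (le_mul_of_one_le_right (by positivity) b1) (by linarith) g1 (by positivity)
    refine ⟨fun ω => g 0 ω + q.al * (G ω * noise n (pathOf w ω) s y),
      fun j => Nat.rec (fun ω => q.ka * (G ω * noise n (pathOf w ω) s y)) (fun j _ => g' j) j,
      (hg.meas 0).add (mE.const_mul _), fun ω => add_nonneg (hg.nonneg 0 ω) (mul_nonneg al.le (pE ω)),
      a2.1, ?_, ⟨fun j => ?_, fun j => ?_, fun j => ?_, ?_⟩, fun ω => ?_, fun e => ?_⟩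
    · rw [a2.2, pow_succ']
      have c2 := mul_le_mul b3 l1 (integral_nonneg p1) (by positivity)
      have c3 : 1 ≤ B * B ^ N := one_le_mul_of_one_le_of_one_le b1 b2
      have c4 := mul_le_mul_of_nonneg_right c3 g0
      have c5 := mul_le_mul_of_nonneg_left l0 (zero_le_one.trans c3)
      linarith
    · cases j with
      | zero => exact mE.const_mul _
      | succ j => exact e1 j ▸ W1.meas j
    · cases j with
      | zero => exact fun ω => mul_nonneg ka (pE ω)
      | succ j => exact W1.nonneg j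
    · cases j with
      | zero => exact a3.1
      | succ j => exact W1.int j
    · rw [Finset.sum_range_succ']
      have c2 := mul_le_mul_of_nonneg_left (l1.trans b4) ka
      have c3 := mul_le_mul_of_nonneg_left b4 (show 0 ≤ q.ka * N by positivity)
      have c4 := W1.le
      have c5 := a3.2
      simp only [Nat.rec_zero] at c5 ⊢
      push_cast
      linarith
    · rw [Finset.sum_range_succ', Finset.sum_range_succ' _ (N + 1)]
      have c2 := le1 ω
      simp only [e1] at c2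
      have c3 := mul_le_mul_of_nonneg_left (uj_succ (w := w) hq n s y ω) (p1 ω)
      simp only [add_zero, Nat.rec_zero]
      linarith
    · have c2 := h1 fun j ω hj => by simpa using e (j + 1) ω (by omega)
      have c3 := HI_noise_rpow h n s y θ
      have c4 := HI_fut h (m1.pow_const θ) (ae.pow_const θ) c2.1 c3.1
      refine (c4.const_mul (q.al ^ θ)).congr (fun ω => ?_) (by rw [c2.2, c3.2]; ring)
      beta_reduce
      rw [e 0 ω (Nat.zero_le _), if_neg (by omega), zero_add, mul_rpow al.le (pE ω),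
        mul_rpow (p1 ω) (noise_pos _ _ _ _).le]

theorem uj_meas (h : Noise P F w) (n j : ℕ) (y : Site d) : Measurable (uj q w n j y) :=
  (h.flow_adapted n j 1 y).mono (F.le _) le_rfl

theorem Wt.prod {n s N : ℕ} {g : ℕ → Ω → ℝ} {c : ℝ} (hg : Wt P w n s N g c) (h : Noise P F w)
    (hq : q.Good) (j : ℕ) (y : Site d) : HI P (fun ω => g j ω * uj q w n (s + j) y ω)
      ((∫ ω, g j ω ∂P) * ∫ ω, uj q w n (s + j) y ω ∂P) :=
  HI_fut h (hg.meas j) (h.flow_adapted n _ 1 y) (hg.int j) (h.flow_int hq n _ zero_le_one y)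

/-- weighted sum of the values of the scheme at one site -/
noncomputable def Tj (q : Par) (w : Site d → ℝ≥0 → Ω → ℝ) (n s N : ℕ) (g : ℕ → Ω → ℝ) (y : Site d)
    (ω : Ω) : ℝ := ∑ j ∈ Finset.range (N + 1), g j ω * uj q w n (s + j) y ω

theorem Wt.T_nonneg {n s N : ℕ} {g : ℕ → Ω → ℝ} {c : ℝ} (hg : Wt P w n s N g c) (hq : q.Good)
    (y : Site d) (ω : Ω) : 0 ≤ Tj q w n s N g y ω :=
  Finset.sum_nonneg fun j _ => mul_nonneg (hg.nonneg j ω) (uj_nonneg hq _ _ _ _)

theorem Wt.T_meas {n s N : ℕ} {g : ℕ → Ω → ℝ} {c : ℝ} (hg : Wt P w n s N g c) (h : Noise P F w)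
    (y : Site d) : Measurable (Tj q w n s N g y) :=
  Finset.measurable_sum _ fun j _ => ((hg.meas j).mono (fut_le h _ _) le_rfl).mul (uj_meas h _ _ _)

theorem Wt.T_int {n s N : ℕ} {g : ℕ → Ω → ℝ} {c : ℝ} (hg : Wt P w n s N g c) (h : Noise P F w)
    (hq : q.Good) (y : Site d) : Integrable (Tj q w n s N g y) P :=
  (HI.sum _ fun j _ => hg.prod h hq j y).1

/-- one application of the decomposition to a fractional moment -/
theorem frac_step (h : Noise P F w) (hq : q.Good) {n s N : ℕ} {θ M R : ℝ} (h0 : 0 < θ) (h1 : θ ≤ 1)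
    (hM : ∀ z, ∫ ω, uj q w n s z ω ^ θ ∂P ≤ M) (y : Site d) {g g' : ℕ → Ω → ℝ} {c c' : ℝ}
    (hg : Wt P w n s N g c) (hg' : Wt P w n s N g' c') {G : Ω → ℝ} (mG : Measurable[Fut w n s] G)
    (pG : ∀ ω, 0 ≤ G ω) (iG : Integrable G P)
    (le : ∀ ω, ∑ j ∈ Finset.range (N + 1), g j ω * uj q w n (s + j) y ω ≤ G ω * uj q w n s y ω +
        ∑ j ∈ Finset.range (N + 1), g' j ω * Sj q w n (s + j) y ω)
    (hR : ∀ z, ∫ ω, Tj q w n s N g' z ω ^ θ ∂P ≤ R) :
    ∫ ω, Tj q w n s N g y ω ^ θ ∂P ≤ (∫ ω, G ω ^ θ ∂P) * M + 2 * d * R := by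
  have := h.prob
  have iT : ∀ z, HI P (fun ω => Tj q w n s N g' z ω ^ θ) _ := fun z =>
    ⟨int_rpow (hg'.T_meas h z) (hg'.T_nonneg hq z) (hg'.T_int h hq z) h0.le h1, rfl⟩
  have a1 := HI_fut h (mG.pow_const θ) ((h.flow_adapted (q := q) n s 1 y).pow_const θ)
    (int_rpow (mG.mono (fut_le h _ _) le_rfl) pG iG h0.le h1)
    (int_rpow (uj_meas h n s y) (uj_nonneg hq n s y) (h.flow_int hq n s zero_le_one y) h0.le h1)
  have a2 := HI.sum Finset.univ fun (i : Fin d) _ =>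
    (iT (y + Pi.single i 1)).add (iT (y - Pi.single i 1))
  refine (HI_le ⟨int_rpow (hg.T_meas h y) (hg.T_nonneg hq y) (hg.T_int h hq y) h0.le h1, rfl⟩
    (a1.add a2) fun ω => ?_).trans (add_le_add
      (mul_le_mul_of_nonneg_left (hM y) (integral_nonneg fun ω => rpow_nonneg (pG ω) θ))
      ((Finset.sum_le_sum fun i _ => add_le_add (hR _) (hR _)).trans (le_of_eq ?_)))
  · have e : ∑ j ∈ Finset.range (N + 1), g' j ω * Sj q w n (s + j) y ω = ∑ i : Fin d,
        (Tj q w n s N g' (y + Pi.single i 1) ω + Tj q w n s N g' (y - Pi.single i 1) ω) := by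
      simp only [Sj, Tj, Finset.mul_sum, mul_add, ← Finset.sum_add_distrib]
      exact Finset.sum_comm
    have p := fun z => hg'.T_nonneg hq z ω
    have b1 := le ω
    rw [e] at b1
    refine (rpow_le_rpow (hg.T_nonneg hq y ω) b1 h0.le).trans
      ((rpow_add_le_add_rpow (mul_nonneg (pG ω) (uj_nonneg hq _ _ _ _))
        (Finset.sum_nonneg fun i _ => add_nonneg (p _) (p _)) h0.le h1).trans
        (add_le_add (mul_rpow (pG ω) (uj_nonneg hq _ _ _ _)).le ?_))
    exact (rpow_sum_le _ (fun i => add_nonneg (p _) (p _)) h0 h1).trans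
      (Finset.sum_le_sum fun i _ => rpow_add_le_add_rpow (p _) (p _) h0.le h1)
  · simp; ring

theorem frac_all (h : Noise P F w) (hq : q.Good) {n s N : ℕ} {θ M : ℝ} (h0 : 0 < θ) (h1 : θ ≤ 1)
    (hM : ∀ z, ∫ ω, uj q w n s z ω ^ θ ∂P ≤ M)
    (hβ : 2 * d * (q.ka * N * max q.al 1 ^ N) ^ θ ≤ 1 / 2) {g : ℕ → Ω → ℝ} {c : ℝ}
    (hg : Wt P w n s N g c) (y : Site d) :
    ∫ ω, Tj q w n s N g y ω ^ θ ∂P ≤ c ^ θ * (2 * ((max q.al 1 ^ N) ^ θ * M)) := by
  have := h.prob
  obtain ⟨D, d0, hD⟩ := uj_mean h hq n (s + N)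
  have m0 : 0 ≤ M := (integral_nonneg fun ω => rpow_nonneg (uj_nonneg hq _ _ _ _) θ).trans (hM 0)
  have ka := hq.ka_nonneg
  have b0 : 0 ≤ max q.al 1 ^ N := by positivity
  set A := (max q.al 1 ^ N) ^ θ * M with hA
  have a0 : 0 ≤ A := by positivity
  have c0 : ∀ {g : ℕ → Ω → ℝ} {c : ℝ}, Wt P w n s N g c → 0 ≤ c := fun hg =>
    (Finset.sum_nonneg fun j _ => integral_nonneg (hg.nonneg j)).trans hg.le
  have key : ∀ m : ℕ, ∀ (g : ℕ → Ω → ℝ) (c : ℝ), Wt P w n s N g c → ∀ y,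
      ∫ ω, Tj q w n s N g y ω ^ θ ∂P ≤ c ^ θ * (2 * A + (1 / 2) ^ m * D ^ θ) := by
    intro m
    induction m with
    | zero =>
      intro g c hg y
      have b1 := c0 hg
      refine (jensen_rpow (hg.T_meas h y) (hg.T_nonneg hq y) (hg.T_int h hq y) h0.le h1
        (c := c * D) ?_).trans ?_
      · refine (HI.sum _ fun j _ => hg.prod h hq j y).2.le.trans
          ((Finset.sum_le_sum fun j hj => mul_le_mul_of_nonneg_left
            (hD _ (by have := Finset.mem_range.1 hj; omega) y)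
            (integral_nonneg (hg.nonneg j))).trans ?_)
        rw [← Finset.sum_mul]
        exact mul_le_mul_of_nonneg_right hg.le d0
      · rw [mul_rpow b1 d0]
        exact mul_le_mul_of_nonneg_left (by rw [pow_zero]; linarith) (rpow_nonneg b1 θ)
    | succ m ih =>
      intro g c hg y
      have b1 := c0 hg
      obtain ⟨G, g', m1, p1, i1, l1, W1, le1, -⟩ := decomp h hq n y θ N s g c hg
      refine (frac_step h hq h0 h1 hM y hg W1 m1 p1 i1 le1 (ih _ _ W1)).trans ?_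
      have b2 := mul_le_mul_of_nonneg_right
        (jensen_rpow (m1.mono (fut_le h _ _) le_rfl) p1 i1 h0.le h1 l1) m0
      rw [mul_rpow b0 b1] at b2
      rw [mul_rpow (by positivity) b1, pow_succ]
      have b3 := mul_le_mul_of_nonneg_right hβ
        (show 0 ≤ c ^ θ * (2 * A + (1 / 2) ^ m * D ^ θ) by positivity)
      have b4 : (max q.al 1 ^ N) ^ θ * c ^ θ * M = c ^ θ * A := by rw [hA]; ring
      linarith
  have t1 : Tendsto (fun m : ℕ => c ^ θ * (2 * A + (1 / 2) ^ m * D ^ θ)) atTop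
      (𝓝 (c ^ θ * (2 * A + 0 * D ^ θ))) :=
    (((tendsto_pow_atTop_nhds_zero_of_lt_one (by norm_num) (by norm_num)).mul_const _).const_add
      _).const_mul _
  rw [zero_mul, add_zero] at t1
  exact ge_of_tendsto' t1 fun m => key m g c hg y

theorem frac_block (h : Noise P F w) (hq : q.Good) {n s N : ℕ} {θ M : ℝ} (h0 : 0 < θ) (h1 : θ ≤ 1)
    (hM : ∀ z, ∫ ω, uj q w n s z ω ^ θ ∂P ≤ M)
    (hβ : 2 * d * (q.ka * N * max q.al 1 ^ N) ^ θ ≤ 1 / 2) (y : Site d) :
    ∫ ω, uj q w n (s + N) y ω ^ θ ∂P ≤ ((q.al ^ θ * exp ((θ ^ 2 - θ) / 2 * tm n 1)) ^ N +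
      4 * d * (q.ka * N * max q.al 1 ^ N) ^ θ * (max q.al 1 ^ N) ^ θ) * M := by
  have := h.prob
  have hg : Wt P w n s N (fun j _ => if j = N then 1 else 0) 1 :=
    ⟨fun _ => measurable_const, fun j _ => by positivity, fun _ => integrable_const _, by simp⟩
  obtain ⟨G, g', m1, p1, i1, -, W1, le1, e1⟩ := decomp h hq n y θ N s _ 1 hg
  have a1 := frac_step h hq h0 h1 hM y hg W1 m1 p1 i1 le1 (frac_all h hq h0 h1 hM hβ W1)
  rw [(e1 fun _ _ _ => rfl).2, mul_one] at a1
  have e : ∀ ω, Tj q w n s N (fun j _ => if j = N then 1 else 0) y ω = uj q w n (s + N) y ω :=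
    fun ω => by simp [Tj]
  simp only [e] at a1
  linarith

theorem frac_decay (h : Noise P F w) {k a ε θ r : ℝ} {b n : ℕ} (hk : 0 ≤ k) (hn : 0 < n)
    (hq : (par d k a ε b n).Good) (h0 : 0 < θ) (h1 : θ ≤ 1)
    (hβ : 2 * d * (k * exp |a|) ^ θ ≤ 1 / 2)
    (hr : exp (θ * a + (θ ^ 2 - θ) / 2) + 4 * d * (k * exp |a|) ^ θ * exp |a| ^ θ ≤ r) (N : ℕ) :
    ∀ z, ∫ ω, uj (par d k a ε b n) w n (N * n) z ω ^ θ ∂P ≤ r ^ N := by
  have := h.prob
  have e1 : (n : ℝ) * tm n 1 = 1 := by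
    have := tm_nat hn 1
    rw [one_mul] at this
    rw [count_mul_mesh, this]; simp
  have δ0 := (tm n 1).coe_nonneg
  set q := par d k a ε b n with hqd
  have e2 : q.ka * n = k := by
    show k * (tm n 1 : ℝ) * n = k
    rw [mul_assoc, mul_comm _ (n : ℝ), e1, mul_one]
  have l1 : q.al ≤ exp (a * tm n 1) := by
    have := add_one_le_exp (a * tm n 1)
    have : 0 ≤ 2 * d * k * (tm n 1 : ℝ) := by positivity
    show 1 + (a - 2 * d * k) * (tm n 1 : ℝ) ≤ _
    linarith
  have l2 : max q.al 1 ^ n ≤ exp |a| := by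
    refine (pow_le_pow_left₀ (by positivity) (max_le (l1.trans (exp_le_exp.2
      (mul_le_mul_of_nonneg_right (le_abs_self a) δ0))) (one_le_exp (by positivity))) n).trans
      (le_of_eq ?_)
    rw [← exp_nat_mul, mul_left_comm, e1, mul_one]
  have l3 : (q.al ^ θ * exp ((θ ^ 2 - θ) / 2 * tm n 1)) ^ n ≤ exp (θ * a + (θ ^ 2 - θ) / 2) := by
    have al := hq.al_pos
    refine (pow_le_pow_left₀ (by positivity) (mul_le_mul_of_nonneg_right
      (rpow_le_rpow al.le l1 h0.le) (exp_pos _).le) n).trans (le_of_eq ?_)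
    rw [← exp_mul, ← exp_add, ← exp_nat_mul]
    congr 1
    linear_combination (θ * a + (θ ^ 2 - θ) / 2) * e1
  have l4 : (q.ka * n * max q.al 1 ^ n) ^ θ ≤ (k * exp |a|) ^ θ := by
    rw [e2]
    exact rpow_le_rpow (by positivity) (mul_le_mul_of_nonneg_left l2 hk) h0.le
  have l5 : (max q.al 1 ^ n) ^ θ ≤ exp |a| ^ θ := rpow_le_rpow (by positivity) l2 h0.le
  have l6 := mul_le_mul (mul_le_mul_of_nonneg_left l4 (show (0 : ℝ) ≤ 4 * d by positivity)) l5
    (by positivity) (by positivity)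
  have r0 : 0 ≤ r := le_trans (by positivity) hr
  induction N with
  | zero => intro z; simp [uj, flow]
  | succ N ih =>
    intro z
    rw [add_mul, one_mul, pow_succ']
    exact (frac_block h hq h0 h1 ih ((mul_le_mul_of_nonneg_left l4 (by positivity)).trans hβ)
      z).trans (mul_le_mul_of_nonneg_right (by linarith) (by positivity))

theorem small_k (d : ℕ) {a : ℝ} (ha : a < 1 / 2) : ∀ᶠ k in 𝓝[≥] (0 : ℝ),
    ∀ {Ω : Type*} {mΩ : MeasurableSpace Ω} {P : Measure Ω} {F : Filtration ℝ≥0 mΩ}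
      {w : Site d → ℝ≥0 → Ω → ℝ} {ε : ℝ} {b : ℕ} {u : ℝ≥0 → Site d → Ω → ℝ}, Noise P F w →
      Sol P F w k a ε b u → 0 < ε → b ≠ 0 →
      Tendsto (fun N : ℕ => ∫ ω, ph (u N 0 ω) ∂P) atTop (𝓝 0) := by
  set θ : ℝ := min 1 (1 / 2 - a) with hθ
  have h0 : 0 < θ := lt_min one_pos (by linarith)
  have h1 : θ ≤ 1 := min_le_left _ _
  have h2 : θ ≤ 1 / 2 - a := min_le_right _ _
  have h3 : exp (θ * a + (θ ^ 2 - θ) / 2) < 1 := exp_lt_one_iff.2 (by nlinarith)
  have c : Tendsto (fun k : ℝ => (k * exp |a|) ^ θ) (𝓝[≥] 0) (𝓝 0) := by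
    have : Continuous fun k : ℝ => (k * exp |a|) ^ θ :=
      (continuous_rpow_const h0.le).comp (by fun_prop)
    simpa [h0.ne'] using (this.tendsto 0).mono_left nhdsWithin_le_nhds
  have c1 := c.const_mul (2 * d : ℝ)
  have c2 := ((c.const_mul (4 * d : ℝ)).mul_const (exp |a| ^ θ)).const_add
    (exp (θ * a + (θ ^ 2 - θ) / 2))
  rw [mul_zero] at c1
  rw [mul_zero, zero_mul, add_zero] at c2
  filter_upwards [self_mem_nhdsWithin, c1.eventually_le_const (show (0 : ℝ) < 1 / 2 by norm_num),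
    c2.eventually_lt_const h3] with k hk e1 e2 Ω mΩ P F w ε b u h hu hε hb
  have := h.prob
  have hk' : 0 ≤ k := hk
  refine squeeze_zero (fun N => integral_nonneg fun _ => ph_nonneg _) (fun N => ?_)
    (tendsto_pow_atTop_nhds_zero_of_lt_one (by positivity) e2)
  refine le_of_forall_pos_le_add fun η hη => ?_
  obtain ⟨n, a1, hn, hq⟩ := ((hu.conv h hk' hε hb N 0 hη).and
    (par_good (d := d) (a := a) hk' hε hb)).exists
  have a2 := a1 (N * n) le_rfl
  rw [tm_nat hn] at a2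
  have i := h.flow_int hq n (N * n) zero_le_one 0
  have a3 := ph_L1 (hu.meas N 0) (uj_meas h n (N * n) 0) (hu.int_u h N 0) i
  have a4 := frac_decay h hk' hn hq h0 h1 e1 le_rfl N 0
  have a5 := integral_mono (ph_int (P := P) (uj_meas h n (N * n) 0))
    (int_rpow (uj_meas h n (N * n) 0) (uj_nonneg hq n _ 0) i h0.le h1) fun ω => by
      have p := uj_nonneg (w := w) hq n (N * n) 0 ω
      show ph _ ≤ _ ^ θ
      rw [ph, abs_of_nonneg p]
      rcases le_total (uj (par d k a ε b n) w n (N * n) 0 ω) 1 with h | h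
      · exact (min_le_left _ _).trans (self_le_rpow_of_le_one p h h1)
      · exact (min_le_right _ _).trans (one_le_rpow h h0.le)
  unfold uj at a3 a4 a5
  linarith

end Pool.Agent.Lib.MP_0db9b2_pr.PT
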