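import Pool.Agent.Lib.MP_0db9b2_pr.PT.Edge

/-
Extinction forces the drift to stay below a threshold smaller than one half.
-/

set_option autoImplicit false

namespace Pool.Agent.Lib.MP_0db9b2_pr.PT

open MeasureTheory ProbabilityTheory Real Filter
open scoped NNReal ENNReal Topology

variable {d : ℕ} {Ω : Type*} {mΩ : MeasurableSpace Ω}
variable {P : Measure Ω} {F : Filtration ℝ≥0 mΩ} {w W : Site d → ℝ≥0 → Ω → ℝ} {k a ε : ℝ} {b : ℕ}
  {u U : ℝ≥0 → Site d → Ω → ℝ}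

namespace Sys

theorem cont_H (S : Sys P F w W k a ε b u U) (x : Site d) (ω : Ω) :
    Continuous fun r => k * Rr (fun y => U r y ω) x + a - ε * U r x ω ^ b := by
  have c1 := fun y => (S.cm_div x y).cont ω
  have c2 := S.cU x ω
  refine (((continuous_finsetSum _ fun i _ => ((c1 _).sub continuous_const).add
    ((c1 _).sub continuous_const)).const_mul k).add continuous_const).sub ((c2.pow b).const_mul ε)

theorem edge_ineq (S : Sys P F w W k a ε b u U) (i0 : Fin d) {c0 : ℝ}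
    (hc0 : ∀ s : ℝ≥0, HI P (fun ω => |(w (0 + Pi.single i0 1) (s + 1) ω - w (0 + Pi.single i0 1) s ω)
      - (w 0 (s + 1) ω - w 0 s ω)|) c0) {T : ℝ≥0} {η Q c : ℝ} (hη : 0 < η)
    (hQ : ∀ (y : Site d) (i : Fin d),
      HL P (T + 1) (fun t ω => qq (U t (y + Pi.single i 1) ω / U t y ω)) Q ∧
      HL P (T + 1) (fun t ω => qq (U t (y - Pi.single i 1) ω / U t y ω)) Q)
    (hc : HJ P (T + 1) (fun t ω => U t 0 ω ^ b) c) :
    c0 * T ≤ (2 + 4 * d * k) * (η * (T + 1) + (1 + η⁻¹) * Q) + 2 * ε * c := by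
  have := S.h.prob
  set x' : Site d := 0 + Pi.single i0 1 with hx'
  have hη' : 0 ≤ 1 + η⁻¹ := by positivity
  have p0 : ∀ t x y ω, 0 < U t y ω / U t x ω := fun t x y ω => div_pos (S.pos _ _ _) (S.pos _ _ _)
  let B : Site d → Site d → ℝ≥0 → Ω → ℝ := fun x y t ω => η + (1 + η⁻¹) * qq (U t y ω / U t x ω)
  have cB : ∀ x y ω, Continuous fun t => B x y t ω := fun x y ω =>
    (((S.cm_qq x y).cont ω).const_mul _).const_add _
  have hB : ∀ (y : Site d) (i : Fin d),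
      HL P (T + 1) (B y (y + Pi.single i 1)) (η * (T + 1 : ℝ≥0) + (1 + η⁻¹) * Q) ∧
      HL P (T + 1) (B y (y - Pi.single i 1)) (η * (T + 1 : ℝ≥0) + (1 + η⁻¹) * Q) := fun y i =>
    ⟨(HJ.const η).hl.add ((hQ y i).1.const_mul hη'), (HJ.const η).hl.add ((hQ y i).2.const_mul hη')⟩
  let A : Site d → ℝ≥0 → Ω → ℝ := fun y t ω =>
    ∑ i : Fin d, (B y (y + Pi.single i 1) t ω + B y (y - Pi.single i 1) t ω)
  have cA : ∀ y ω, Continuous fun t => A y t ω := fun y ω =>
    continuous_finsetSum _ fun i _ => (cB _ _ ω).add (cB _ _ ω)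
  have hA := fun y => (HL.sum fun i => (hB y i).1.add (hB y i).2).const_mul S.hk
  have bA : ∀ y t ω, |Rr (fun z => U t z ω) y| ≤ A y t ω := fun y t ω =>
    (Finset.abs_sum_le_sum_abs _ _).trans (Finset.sum_le_sum fun i _ => (abs_add_le _ _).trans
      (add_le_add (qq_bound (p0 _ _ _ _) hη).1 (qq_bound (p0 _ _ _ _) hη).1))
  obtain ⟨cD, hD, lD⟩ := ((hA x').add (hA 0)).add
    (((S.pow_shift x' hc).hl.const_mul S.hε.le).add (hc.hl.const_mul S.hε.le))
  obtain ⟨cZ, hZ, lZ⟩ := (hB 0 i0).1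
  let g : ℝ≥0 → Ω → ℝ := fun s ω => |(W x' (s + 1) ω - W 0 (s + 1) ω) - (W x' s ω - W 0 s ω)|
  have cg : CM mΩ g := by
    refine ⟨fun ω => ?_, fun s => ?_⟩
    · have := (S.hN.good ω).cW x'
      have := (S.hN.good ω).cW 0
      simp only [g]
      fun_prop
    · have := S.hN.mW x'
      have := S.hN.mW 0
      simp only [g]
      fun_prop
  have k1 : ∀ s, HI P (g s) c0 := fun s => HI_ae (hc0 s) (S.hN.ae.mono fun ω hω => by
    simp only [g, hω.2]
    congr 1; ring)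
  obtain ⟨cc, hg⟩ := cg.of_bound (P := P) (T := T) (C := c0) fun s _ =>
    ⟨(k1 s).1, by simp only [g, abs_abs]; exact (k1 s).2.le⟩
  have e1 : cc = c0 * T := by
    rw [hg.time, ← In_const]
    exact In_congr fun s _ => (k1 s).2
  have le := HI_le hg.path ((hZ.path.const_mul 2).add hD.path) fun ω => by
    have G := S.hN.good ω
    refine edge_det (V := fun t => W x' t ω - W 0 t ω)
      (L := fun t => log (U t x' ω) - log (U t 0 ω))
      (D := fun t => k * A x' t ω + k * A 0 t ω + (ε * U t x' ω ^ b + ε * U t 0 ω ^ b))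
      (H := fun r => (k * Rr (fun y => U r y ω) x' + a - ε * U r x' ω ^ b) -
        (k * Rr (fun y => U r y ω) 0 + a - ε * U r 0 ω ^ b)) ((G.cW x').sub (G.cW 0)) (cB _ _ ω)
      ((((cA x' ω).const_mul k).add ((cA 0 ω).const_mul k)).add
        ((((S.cU x' ω).pow b).const_mul ε).add (((S.cU 0 ω).pow b).const_mul ε)))
      ((S.cont_H x' ω).sub (S.cont_H 0 ω)) (fun t => ?_) (fun t => ?_) (fun t => ?_) T
    · rw [In_sub (S.cont_H x' ω) (S.cont_H 0 ω), G.logid t x', G.logid t 0]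
      ring
    · rw [← log_div (S.pos _ _ _).ne' (S.pos _ _ _).ne']
      exact (qq_bound (p0 _ _ _ _) hη).2
    · have a1 := abs_le.1 (bA x' t ω)
      have a2 := abs_le.1 (bA 0 t ω)
      have a3 := mul_pos S.hε (pow_pos (S.pos t x' ω) b)
      have a4 := mul_pos S.hε (pow_pos (S.pos t 0 ω) b)
      have a5 := mul_le_mul_of_nonneg_left a1.1 S.hk
      have a6 := mul_le_mul_of_nonneg_left a1.2 S.hk
      have a7 := mul_le_mul_of_nonneg_left a2.1 S.hk
      have a8 := mul_le_mul_of_nonneg_left a2.2 S.hk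
      rw [abs_le]
      constructor <;> linarith
  rw [NNReal.coe_add, NNReal.coe_one] at lD lZ
  linarith

theorem pow_le_ph {y K : ℝ} (hy : 0 < y) (hK : 1 ≤ K) {b : ℕ} (hb : b ≠ 0) :
    y ^ b ≤ K ^ b * ph y + K⁻¹ * y ^ (b + 1) := by
  have h0 : 0 < K := by linarith
  have h1 : 1 ≤ K ^ b := one_le_pow₀ hK
  have h2 : 0 ≤ K⁻¹ * y ^ (b + 1) := by positivity
  have h3 := mul_nonneg (zero_le_one.trans h1) (ph_nonneg y)
  rcases le_total y K with h | h
  · refine le_trans ?_ (le_add_of_nonneg_right h2)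
    rw [ph, abs_of_pos hy]
    rcases le_total y 1 with h' | h'
    · rw [min_eq_left h']
      exact (pow_le_of_le_one hy.le h' hb).trans (le_mul_of_one_le_left hy.le h1)
    · rw [min_eq_right h', mul_one]
      exact pow_le_pow_left₀ hy.le h b
  · refine le_trans ?_ (le_add_of_nonneg_left h3)
    rw [pow_succ', ← mul_assoc]
    exact le_mul_of_one_le_left (pow_pos hy b).le (by rw [inv_mul_eq_div]; exact (one_le_div h0).2 h)

theorem cm_ph (S : Sys P F w W k a ε b u U) (x : Site d) : CM mΩ fun t ω => ph (U t x ω) :=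
  ⟨fun ω => ph_cont.comp (S.cU x ω), fun t => ph_cont.measurable.comp (S.hN.mU t x)⟩

theorem small_avg (S : Sys P F w W k a ε b u U)
    (hz : Tendsto (fun t => ∫ ω, ph (U t 0 ω) ∂P) atTop (𝓝 0)) {δ : ℝ} (hδ : 0 < δ) :
    ∃ C : ℝ, ∀ T : ℝ≥0, HL P T (fun t ω => U t 0 ω ^ b) (δ * T + C) := by
  have := S.h.prob
  have hε := S.hε
  obtain ⟨C, h0, hC⟩ := S.avg
  set K : ℝ := 1 + 4 * C / (ε * δ) with hK
  have k0 : 0 ≤ 4 * C / (ε * δ) := by positivity
  have k1 : 1 ≤ K := by linarith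
  have k2 : 0 < K := by linarith
  obtain ⟨C', hC'⟩ := (S.cm_ph 0).cesaro (fun t ω => ph_le _) hz (δ := δ / (2 * K ^ b))
    (by positivity)
  refine ⟨K ^ b * C' + K⁻¹ * (2 / ε), fun T => ?_⟩
  obtain ⟨m, c2, -, h2, -, l2⟩ := hC T 0
  obtain ⟨c, h1, l1⟩ := hC' T
  refine ((((h1.const_mul (K ^ b)).add (h2.const_mul K⁻¹)).hl).of_le (S.cm_pow 0 b) fun t ω => by
    rw [abs_of_pos (pow_pos (S.pos _ _ _) b)]
    exact pow_le_ph (S.pos _ _ _) k1 S.hb).mono ?_
  rw [zero_mul, sub_zero] at l1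
  have a1 := mul_le_mul_of_nonneg_left ((le_abs_self c).trans l1) (pow_pos k2 b).le
  have a2 : K ^ b * (δ / (2 * K ^ b) * T + C') = δ / 2 * T + K ^ b * C' := by field_simp
  have a3 : c2 ≤ 2 / ε * (1 + C * T) := by
    rw [div_mul_eq_mul_div, le_div_iff₀ hε]; linarith
  have a4 := mul_le_mul_of_nonneg_left a3 (inv_pos.2 k2).le
  have a5 : K⁻¹ * (2 / ε * C) ≤ δ / 2 := by
    rw [inv_mul_le_iff₀ k2, hK, add_mul]
    have : 4 * C / (ε * δ) * (δ / 2) = 2 / ε * C := by field_simp; ring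
    linarith
  have a6 := mul_le_mul_of_nonneg_right a5 T.coe_nonneg
  linarith

end Sys

theorem threshold (hd : 1 ≤ d) (h : Noise P F w) (hk : 0 < k) : ∃ a0 : ℝ, a0 < 1 / 2 ∧
    ∀ (a ε : ℝ) (b : ℕ) (W : Site d → ℝ≥0 → Ω → ℝ) (u U : ℝ≥0 → Site d → Ω → ℝ),
      Sys P F w W k a ε b u U →
      Tendsto (fun t => ∫ ω, ph (U t 0 ω) ∂P) atTop (𝓝 0) → a ≤ a0 := by
  let i0 : Fin d := ⟨0, hd⟩
  obtain ⟨c0, p0, hc0⟩ := edge_const h (x := 0) (x' := 0 + Pi.single i0 1) (fun e => by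
    have := congrFun e i0
    simp at this)
  set M : ℝ := 2 + 4 * d * k with hM
  have m0 : 0 < M := by positivity
  set η : ℝ := c0 / (2 * M) with hη
  have η0 : 0 < η := by positivity
  set N : ℝ := M * (1 + η⁻¹) / k with hN
  have n0 : 0 < N := by positivity
  refine ⟨1 / 2 - c0 / (2 * N), by linarith [show 0 < c0 / (2 * N) by positivity],
    fun a ε b W u U S hz => ?_⟩
  have hε := S.hε
  obtain ⟨C, h0, hC⟩ := S.avg
  have key : ∀ δ : ℝ, 0 < δ → c0 / 2 ≤ N * (1 / 2 - a) + (N * (C + ε) + 2 * ε) * δ := by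
    intro δ hδ
    obtain ⟨C', hC'⟩ := S.small_avg hz hδ
    refine lin_le (C := c0 / 2 + N * (δ * (1 + C) - log δ + (1 / 2 - a) + ε * (δ + C')) +
      2 * ε * (δ + C')) fun T => ?_
    obtain ⟨m, c2, hm, -, lm, -⟩ := hC (T + 1) 0
    obtain ⟨c, hc, lc⟩ := hC' (T + 1)
    obtain ⟨Q, lQ, hQ⟩ := S.edgeQ hk hδ hm hc
    have e := S.edge_ineq i0 hc0 η0 hQ hc
    rw [NNReal.coe_add, NNReal.coe_one] at lm lc lQ
    have e1 : M * (η * (T + 1) + (1 + η⁻¹) * Q) = c0 / 2 * (T + 1) + N * (k * Q) := by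
      have : M * η = c0 / 2 := by rw [hη]; field_simp
      rw [← this, hN]; field_simp
    rw [← hM, e1] at e
    have a1 := mul_le_mul_of_nonneg_left lm hδ.le
    have a2 := mul_le_mul_of_nonneg_left lc hε.le
    have a3 : k * Q ≤ δ * (1 + C * (T + 1)) - log δ + (1 / 2 - a) * (T + 1) +
        ε * (δ * (T + 1) + C') := by linarith
    have a4 := mul_le_mul_of_nonneg_left a3 n0.le
    linarith
  have k2 : c0 / 2 ≤ N * (1 / 2 - a) := by
    refine le_of_forall_pos_le_add fun δ hδ => ?_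
    have p : 0 < N * (C + ε) + 2 * ε := by positivity
    have := key (δ / (N * (C + ε) + 2 * ε)) (by positivity)
    rwa [mul_div_cancel₀ _ p.ne'] at this
  have k3 : c0 / (2 * N) ≤ 1 / 2 - a := by
    rw [div_le_iff₀ (by positivity)]; linarith
  linarith

end Pool.Agent.Lib.MP_0db9b2_pr.PT
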