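import Pool.Agent.Lib.MP_0db9b2_pr.PT.Lim

/-
The case of zero diffusivity: the threshold is one half.
-/

set_option autoImplicit false

namespace Pool.Agent.Lib.MP_0db9b2_pr.PT

open MeasureTheory ProbabilityTheory Real Filter
open scoped NNReal ENNReal Topology

variable {d : ℕ} {Ω : Type*} {mΩ : MeasurableSpace Ω}
variable {P : Measure Ω} {F : Filtration ℝ≥0 mΩ} {w W : Site d → ℝ≥0 → Ω → ℝ} {a ε : ℝ} {b : ℕ}
  {u U : ℝ≥0 → Site d → Ω → ℝ} {ν : Measure (ℝ≥0 × Site d → ℝ)}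

theorem In_shift' {f : ℝ≥0 → ℝ} (hf : Continuous f) (s T : ℝ≥0) :
    In (fun t => f (s + t)) T = In f (s + T) - In f s := by
  rw [In_sub_In hf, In]
  have e := intervalIntegral.integral_comp_add_left (a := 0) (b := (T : ℝ))
    (fun r : ℝ => f r.toNNReal) s
  rw [add_zero] at e
  rw [NNReal.coe_add, ← e]
  refine intervalIntegral.integral_congr fun r hr => ?_
  rw [Set.uIcc_of_le T.coe_nonneg] at hr
  simp only [Real.toNNReal_add s.coe_nonneg hr.1, Real.toNNReal_coe]

theorem CM.hl_bound [IsProbabilityMeasure P] {g : ℝ≥0 → Ω → ℝ} {T : ℝ≥0} (h : CM mΩ g) {C : ℝ}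
    (hC : ∀ t ≤ T, Integrable (g t) P ∧ ∫ ω, |g t ω| ∂P ≤ C) : HL P T g (C * T) := by
  obtain ⟨c, hc⟩ := h.of_bound hC
  refine ⟨c, hc, ?_⟩
  rw [hc.time]
  refine (le_abs_self _).trans ((intervalIntegral.norm_integral_le_of_norm_le_const (C := C)
    (f := fun r : ℝ => ∫ ω, g r.toNNReal ω ∂P) fun r hr => ?_).trans (by simp))
  rw [Set.uIoc_of_le T.coe_nonneg] at hr
  exact abs_integral_le_integral_abs.trans (hC _ (Real.toNNReal_le_iff_le_coe.2 hr.2)).2

theorem step_det {V X : ℝ≥0 → ℝ} {ε θ : ℝ} {b : ℕ} (hε : 0 < ε) (cV : Continuous V)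
    (cX : Continuous X) (pV : ∀ t, 0 < V t)
    (hL : ∀ t, log (V t) = X t - ε * In (fun r => V r ^ b) t) (h0 : 0 ≤ θ) (h1 : θ ≤ 1) (s : ℝ≥0) :
    exp (-(θ * b) * log (V (s + 1))) ≤
      exp (-(θ * b) * (X (s + 1) - X s)) * exp (-(θ * b) * log (V s)) +
        (1 + In (fun r => b * ε * exp (-b * (X (s + 1) - X (s + r)))) 1) := by
  have ch : Continuous fun r => b * ε * exp (b * X r) := by fun_prop
  have hY : ∀ t, exp (b * ε * In (fun r => V r ^ b) t) = 1 + In (fun r => b * ε * exp (b * X r)) t := by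
    intro t
    have := exp_prod (V := fun _ => 1) (g := fun _ => 0) (lam := fun r => b * ε * V r ^ b)
      continuous_const (by fun_prop) (fun t => by simp [In]) t
    rw [mul_one, In_mul] at this
    rw [this]
    congr 1
    refine In_congr fun r _ => ?_
    have e : V r ^ b = exp (b * log (V r)) := by rw [exp_nat_mul, exp_log (pV r)]
    rw [In_mul, mul_one, add_zero, e, mul_left_comm, ← exp_add, hL]
    congr 2; ring
  set B := In (fun r => b * ε * exp (-b * (X (s + 1) - X (s + r)))) 1 with hB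
  have b0 : 0 ≤ B := In_nonneg (fun _ => by positivity) 1
  have e1 : B = exp (-b * X (s + 1)) * (In (fun r => b * ε * exp (b * X r)) (s + 1) -
      In (fun r => b * ε * exp (b * X r)) s) := by
    rw [← In_shift' ch, ← In_mul]
    refine In_congr fun r _ => ?_
    rw [mul_left_comm, ← exp_add]
    congr 2; ring
  have e2 : exp (-b * log (V (s + 1))) =
      exp (-b * (X (s + 1) - X s) + -b * log (V s)) + B := by
    have a1 : exp (-b * log (V (s + 1))) =
        exp (-b * X (s + 1)) * exp (b * ε * In (fun r => V r ^ b) (s + 1)) := by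
      rw [← exp_add, hL]; congr 1; ring
    have a2 : exp (-b * (X (s + 1) - X s) + -b * log (V s)) =
        exp (-b * X (s + 1)) * exp (b * ε * In (fun r => V r ^ b) s) := by
      rw [← exp_add, hL]; congr 1; ring
    rw [a1, a2, e1, hY, hY]
    ring
  have e3 : exp (-(θ * b) * log (V (s + 1))) = exp (-b * log (V (s + 1))) ^ θ := by
    rw [← exp_mul]; congr 1; ring
  have e4 : B ^ θ ≤ 1 + B := by
    rcases le_total B 1 with h | h
    · exact (rpow_le_one b0 h h0).trans (le_add_of_nonneg_right b0)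
    · exact (rpow_le_self_of_one_le h h1).trans (le_add_of_nonneg_left zero_le_one)
  rw [e3, e2]
  refine (rpow_add_le_add_rpow (exp_pos _).le b0 h0 h1).trans (add_le_add (le_of_eq ?_) e4)
  rw [← exp_mul, ← exp_add]
  congr 1; ring

namespace Sys

theorem log_zero (S : Sys P F w W 0 a ε b u U) (t : ℝ≥0) (ω : Ω) :
    log (U t 0 ω) = (W 0 t ω + (a - 1 / 2) * t) - ε * In (fun r => U r 0 ω ^ b) t := by
  rw [(S.hN.good ω).logid t 0]
  simp only [zero_mul, zero_add]
  rw [In_sub continuous_const (((S.cm_pow 0 b).cont ω).const_mul ε), In_const, In_mul]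
  ring

theorem step (S : Sys P F w W 0 a ε b u U) : ∃ C : ℝ, 0 ≤ C ∧ ∀ θ : ℝ, 0 ≤ θ → θ ≤ 1 →
    ∀ (s : ℝ≥0) (m : ℝ), HI P (fun ω => exp (-(θ * b) * log (U s 0 ω))) m →
      ∃ m', HI P (fun ω => exp (-(θ * b) * log (U (s + 1) 0 ω))) m' ∧
        m' ≤ exp ((θ * b) ^ 2 / 2 - θ * b * (a - 1 / 2)) * m + C := by
  have := S.h.prob
  have hε := S.hε
  set K : ℝ := b * ε * exp (|b * (a - 1 / 2)| + b ^ 2 / 2) with hK
  refine ⟨1 + K, by positivity, fun θ h0 h1 s m hm => ?_⟩
  let g : ℝ≥0 → Ω → ℝ := fun r ω => b * ε * exp (-b * ((W 0 (s + 1) ω + (a - 1 / 2) * (s + 1 : ℝ≥0))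
    - (W 0 (s + r) ω + (a - 1 / 2) * (s + r : ℝ≥0))))
  have cg : CM mΩ g := by
    refine ⟨fun ω => ?_, fun s => ?_⟩
    · have := (S.hN.good ω).cW 0
      simp only [g]
      fun_prop
    · have := S.hN.mW 0
      simp only [g]
      fun_prop
  have k1 : ∀ r ≤ 1, ∃ c, HI P (g r) c ∧ c ≤ K := fun r hr => by
    have hr' : (r : ℝ) ≤ 1 := hr
    have r0 := r.coe_nonneg
    have a1 := S.h.HI_incr 0 (s + r) (1 - r) (g := fun y => exp (-b * y)) (by fun_prop)
      (HI_exp _ _).1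
    rw [(HI_exp _ _).2, add_assoc, add_tsub_cancel_of_le hr, NNReal.coe_sub hr] at a1
    refine ⟨_, HI_ae (a1.const_mul (b * ε * exp (-b * (a - 1 / 2) * (1 - r)))) ?_, ?_⟩
    · filter_upwards [S.hN.ae] with ω hω
      simp only [g, hω.2]
      rw [mul_assoc, ← exp_add]
      congr 2; push_cast; ring
    · rw [mul_assoc, ← exp_add]
      refine mul_le_mul_of_nonneg_left (exp_le_exp.2 ?_) (by positivity)
      have a2 := neg_abs_le (b * (a - 1 / 2))
      have a3 := abs_nonneg (b * (a - 1 / 2))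
      have a4 := sq_nonneg (b : ℝ)
      push_cast
      nlinarith
  have g0 : ∀ r ω, 0 ≤ g r ω := fun r ω => by simp only [g]; positivity
  obtain ⟨c, hc, lc⟩ := cg.hl_bound (P := P) (T := 1) (C := K) fun r hr => by
    obtain ⟨c, h2, h3⟩ := k1 r hr
    simp only [abs_of_nonneg (g0 _ _)]
    exact ⟨h2.1, h2.2.le.trans h3⟩
  have hm0 : HI P (fun ω => exp (-(θ * b) * log (u s 0 ω))) m :=
    HI_ae hm (S.hN.ae.mono fun ω hω => by rw [hω.1])
  have a1 := S.h.HI_incr_mul 0 s 1 (g := fun y => exp (-(θ * b) * y)) (by fun_prop) (HI_exp _ _).1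
    (Z := fun ω => exp (-(θ * b) * log (u s 0 ω)))
    (measurable_exp.comp ((measurable_log.comp (S.hu.ad 0 s)).const_mul _)) hm0.1
  rw [(HI_exp _ _).2, hm0.2] at a1
  have a2 : HI P (fun ω => exp (-(θ * b) * ((W 0 (s + 1) ω + (a - 1 / 2) * (s + 1 : ℝ≥0)) -
      (W 0 s ω + (a - 1 / 2) * s))) * exp (-(θ * b) * log (U s 0 ω)))
      (exp ((θ * b) ^ 2 / 2 - θ * b * (a - 1 / 2)) * m) := by
    refine (HI_ae (a1.const_mul (exp (-(θ * b * (a - 1 / 2))))) ?_).congr (fun _ => rfl) ?_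
    · filter_upwards [S.hN.ae] with ω hω
      rw [hω.1, hω.2, hω.2, ← mul_assoc, ← exp_add]
      congr 2; push_cast; ring
    · rw [← mul_assoc, ← exp_add]
      congr 2; push_cast; ring
  have a3 := a2.add ((HI.const 1).add hc.path)
  have le := fun ω => step_det (V := fun t => U t 0 ω) (X := fun t => W 0 t ω + (a - 1 / 2) * t) hε
    (S.cU 0 ω) (by have := (S.hN.good ω).cW 0; fun_prop) (fun t => S.pos t 0 ω)
    (fun t => S.log_zero t ω) h0 h1 s
  have i : Integrable (fun ω => exp (-(θ * b) * log (U (s + 1) 0 ω))) P :=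
    a3.1.mono' (measurable_exp.comp ((measurable_log.comp (S.hN.mU _ _)).const_mul
      _)).aestronglyMeasurable (ae_of_all _ fun ω => by
        rw [Real.norm_of_nonneg (exp_pos _).le]; exact le ω)
  refine ⟨_, ⟨i, rfl⟩, (HI_le ⟨i, rfl⟩ a3 le).trans ?_⟩
  rw [NNReal.coe_one, mul_one] at lc
  linarith

theorem start (S : Sys P F w W 0 a ε b u U) (r : ℝ) :
    HI P (fun ω => exp (r * log (U ((0 : ℕ) : ℝ≥0) 0 ω))) 1 := by
  refine (HI_ae (HI_w S.h 0 0 (g := fun y => exp (r * y)) (by fun_prop) (HI_exp 0 r)) ?_).congr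
    (fun _ => rfl) (by simp)
  filter_upwards [S.hN.ae] with ω hω
  rw [S.log_zero, hω.2]
  simp [In]

variable [IsProbabilityMeasure P] [IsProbabilityMeasure ν]

theorem pos_zero (S : Sys P F w W 0 a ε b u U) (L : LimOf P u ν) (ha : 1 / 2 < a) :
    ∀ᵐ f ∂ν, 0 < f (0, 0) := by
  obtain ⟨C, c0, hC⟩ := S.step
  have b0 : (0 : ℝ) < b := by exact_mod_cast Nat.pos_of_ne_zero S.hb
  set θ : ℝ := min 1 ((a - 1 / 2) / b) with hθ
  have t0 : 0 < θ := lt_min one_pos (div_pos (by linarith) b0)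
  have t1 : θ * b ≤ a - 1 / 2 := (le_div_iff₀ b0).1 (min_le_right _ _)
  have t2 := mul_pos t0 b0
  set ρ := exp ((θ * b) ^ 2 / 2 - θ * b * (a - 1 / 2)) with hρ
  have r0 : 0 < ρ := exp_pos _
  have r1 : ρ < 1 := exp_lt_one_iff.2 (by nlinarith)
  set M := 1 + C / (1 - ρ) with hM
  have m0 : 0 ≤ C / (1 - ρ) := div_nonneg c0 (by linarith)
  have m1 : ρ * M + C ≤ M := by
    have : C / (1 - ρ) * (1 - ρ) = C := div_mul_cancel₀ _ (by linarith)
    rw [hM]; nlinarith
  have hn : ∀ n : ℕ, ∃ m, HI P (fun ω => exp (-(θ * b) * log (U n 0 ω))) m ∧ m ≤ M := by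
    intro n
    induction n with
    | zero => exact ⟨1, S.start _, by linarith⟩
    | succ n ih =>
      obtain ⟨m, h1, h2⟩ := ih
      obtain ⟨m', h3, h4⟩ := hC θ t0.le (min_le_left _ _) n m h1
      have := mul_le_mul_of_nonneg_left h2 r0.le
      exact ⟨m', by simpa using h3, by linarith⟩
  let A : Set (ℝ≥0 × Site d → ℝ) := {f | f (0, 0) = 0}
  have mA : MeasurableSet A := measurableSet_eq_fun (measurable_pi_apply _) measurable_const
  have key : ∀ K : ℝ≥0, ν.real A * (θ * b) * K ≤ 0 * K + M := fun K => by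
    have k0 : 0 ≤ θ * b * K := by positivity
    have cφ : Continuous fun z : ℝ × ℝ => θ * b * K * (1 - ph (exp K * z.1)) :=
      (continuous_const.sub (ph_cont.comp (by fun_prop))).const_mul _
    have φ0 : ∀ y, 0 ≤ 1 - ph y := fun y => sub_nonneg.2 (min_le_right _ _)
    have hK : ∀ z : ℝ × ℝ, |θ * b * K * (1 - ph (exp K * z.1))| ≤ θ * b * K := fun z => by
      rw [abs_of_nonneg (mul_nonneg k0 (φ0 _))]
      exact mul_le_of_le_one_right k0 (by linarith [ph_nonneg (exp K * z.1)])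
    have h1 := (S.lim_pair L 0 0 cφ hK).comp tendsto_natCast_atTop_atTop
    have h2 := le_of_tendsto' h1 (b := M) fun n => by
      obtain ⟨m, h3, h4⟩ := hn n
      refine le_trans (integral_mono_of_nonneg (ae_of_all _ fun ω => mul_nonneg k0 (φ0 _)) h3.1
        (ae_of_all _ fun ω => ?_)) (h3.2.le.trans h4)
      have p := S.pos n 0 ω
      show θ * b * K * (1 - ph (exp K * U n 0 ω)) ≤ exp (-(θ * b) * log (U n 0 ω))
      rcases le_total 1 (exp K * U n 0 ω) with h | h
      · rw [ph, min_eq_right (h.trans (le_abs_self _)), sub_self, mul_zero]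
        exact (exp_pos _).le
      · have a1 := log_nonpos (by positivity) h
        rw [log_mul (exp_pos _).ne' p.ne', log_exp] at a1
        have a2 := add_one_le_exp (-(θ * b) * log (U n 0 ω))
        have a3 := (le_abs_self _).trans (hK (U n 0 ω, 0))
        nlinarith
    rw [zero_mul, zero_add M, mul_assoc, ← smul_eq_mul, ← integral_indicator_const _ mA]
    refine le_trans (integral_mono ((integrable_const _).indicator mA) (int_pair 0 0 cφ hK)
      fun f => ?_) h2
    by_cases hf : f ∈ A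
    · have e : f (0, 0) = 0 := hf
      simp only [Set.indicator_of_mem hf, e, mul_zero, ph_eq_zero.2 rfl, sub_zero, mul_one, le_refl]
    · simp only [Set.indicator_of_notMem hf]
      exact mul_nonneg k0 (φ0 _)
  have h2 : ν.real A ≤ 0 := by
    have := lin_le key
    by_contra h
    have := mul_pos (not_le.1 h) t2
    linarith
  have h3 := (measureReal_eq_zero_iff (measure_ne_top ν A)).1 (le_antisymm h2 measureReal_nonneg)
  filter_upwards [S.nonneg L, measure_eq_zero_iff_ae_notMem.1 h3] with f h1 h2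
  exact h1.lt_of_ne fun e => h2 e.symm

theorem zero_zero (S : Sys P F w W 0 a ε b u U) (L : LimOf P u ν) (ha : a ≤ 1 / 2) :
    ∀ᵐ f ∂ν, f (0, 0) = 0 := by
  obtain ⟨C, c0, hC⟩ := S.step
  have hε := S.hε
  have b0 : (0 : ℝ) < b := by exact_mod_cast Nat.pos_of_ne_zero S.hb
  refine S.zero_of_avg L (p := b) fun δ hδ => ?_
  set θ : ℝ := min 1 (ε * δ / b) with hθ
  have t0 : 0 < θ := lt_min one_pos (by positivity)
  have t1 : θ * b ≤ ε * δ := (le_div_iff₀ b0).1 (min_le_right _ _)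
  have t2 := mul_pos t0 b0
  set l := (θ * b) ^ 2 / 2 - θ * b * (a - 1 / 2) with hl
  have l0 : 0 ≤ l := by rw [hl]; nlinarith
  have hn : ∀ n : ℕ, ∃ m, HI P (fun ω => exp (-(θ * b) * log (U n 0 ω))) m ∧
      m ≤ (1 + C * n) * exp (l * n) := by
    intro n
    induction n with
    | zero => exact ⟨1, S.start _, by simp⟩
    | succ n ih =>
      obtain ⟨m, h1, h2⟩ := ih
      obtain ⟨m', h3, h4⟩ := hC θ t0.le (min_le_left _ _) n m h1
      refine ⟨m', by simpa using h3, h4.trans ?_⟩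
      have a1 := mul_le_mul_of_nonneg_left h2 (exp_pos l).le
      have a2 : exp (l * (n + 1 : ℕ)) = exp l * exp (l * n) := by
        rw [← exp_add]; congr 1; push_cast; ring
      have a3 : 1 ≤ exp (l * (n + 1 : ℕ)) := one_le_exp (by positivity)
      have a4 := mul_le_mul_of_nonneg_left a3 c0
      rw [a2] at a4 ⊢
      push_cast
      linarith
  set η : ℝ := θ * b * (ε * δ) / (2 * (C + 1)) with hη
  have η0 : 0 < η := by positivity
  have η1 : η * C ≤ θ * b * (ε * δ) / 2 := by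
    have : η * (C + 1) = θ * b * (ε * δ) / 2 := by rw [hη]; field_simp
    linarith
  refine ⟨δ + (η - log η) / (θ * b * ε), fun T => ?_⟩
  obtain ⟨c, hc⟩ := S.ex_pow 0 b T
  obtain ⟨c', hc'⟩ := S.ex_pow 0 b ⌈T⌉₊
  obtain ⟨m, h1, h2⟩ := hn ⌈T⌉₊
  have a1 : c ≤ c' := HI_le hc.path hc'.path fun ω => In_mono_time ((S.cm_pow 0 b).cont ω)
    (fun t => (pow_pos (S.pos _ _ _) _).le) (Nat.le_ceil T)
  have a2 : (⌈T⌉₊ : ℝ) ≤ T + 1 := by exact_mod_cast (Nat.ceil_lt_add_one (zero_le (a := T))).le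
  set n := ⌈T⌉₊ with hn'
  set G := (1 + C * n) * exp (l * n) with hG
  have g0 : 0 < 1 + C * n := by positivity
  have g1 : 0 < G := by positivity
  have hW : HI P (W 0 n) 0 := HI_ae (HI_w_id S.h 0 n) (S.hN.ae.mono fun ω hω => (hω.2 _ _).symm)
  have a3 := HI_le (hc'.path.const_mul (θ * b * ε)) (((hW.const_mul (θ * b)).add
    (HI.const (θ * b * (a - 1 / 2) * n + log G - 1))).add (h1.const_mul G⁻¹)) fun ω => by
      have e1 := S.log_zero n ω
      have e2 := log_le_sub_one_of_pos (mul_pos (inv_pos.2 g1)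
        (exp_pos (-(θ * b) * log (U n 0 ω))))
      rw [log_mul (inv_pos.2 g1).ne' (exp_pos _).ne', log_inv, log_exp] at e2
      rw [NNReal.coe_natCast] at e1
      have e3 := congrArg (fun y => θ * b * y) e1
      linarith
  have a4 : G⁻¹ * m ≤ 1 := by rw [inv_mul_le_iff₀ g1]; linarith
  have a5 : log G = log (1 + C * n) + l * n := by rw [hG, log_mul g0.ne' (exp_pos _).ne', log_exp]
  have a6 := log_le_sub_one_of_pos (mul_pos η0 g0)
  rw [log_mul η0.ne' g0.ne'] at a6
  have n0 : (0 : ℝ) ≤ n := Nat.cast_nonneg n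
  have a7 := mul_le_mul_of_nonneg_right η1 n0
  have a8 := mul_le_mul_of_nonneg_right (mul_le_mul_of_nonneg_left t1 t2.le) n0
  have a9 := mul_le_mul_of_nonneg_left a2 (show 0 ≤ θ * b * (ε * δ) by positivity)
  have a10 : θ * b * ε * c' ≤ θ * b * ε * (δ * T + δ) + (η - log η) := by
    rw [a5, hl] at a3
    linarith
  refine ⟨c, hc, a1.trans (le_of_mul_le_mul_left (a10.trans (le_of_eq ?_)) (mul_pos t2 hε))⟩
  field_simp
  ring

end Sys

end Pool.Agent.Lib.MP_0db9b2_pr.PT
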